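import Mathlib
import Pool.Agent.Y729.DB.Diff
import Pool.Agent.Y733.VR.Disc
import Pool.Agent.H10VJ.Form

set_option autoImplicit false

/-!
A bound for the truncated counting function and the discriminant.
-/

namespace Pool.Agent.H10UD

open NumberField IsDedekindDomain Module IntermediateField Polynomial Pool.Agent.Y733.VR

variable {K M : Type} [Field K] [NumberField K] [Field M] [NumberField M] [Algebra K M]

/-- the exponent of the different -/
lemma diff_exp (w : HeightOneSpectrum (𝓞 M)) {a : 𝓞 K}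
    (haw : algebraMap (𝓞 K) (𝓞 M) a ∈ w.asIdeal) {k : ℕ}
    (hk : w.asIdeal ^ k ∣ differentIdeal (𝓞 K) (𝓞 M)) :
    w.asIdeal ^ (k + 1) ∣ Ideal.span {algebraMap (𝓞 K) (𝓞 M)
      ((((finrank K M).factorial : ℕ) : 𝓞 K) * a)} := by
  set p := (w.under (𝓞 K)).asIdeal with hp
  have hpm : p.IsMaximal := (w.under (𝓞 K)).isMaximal
  have hwm : w.asIdeal.IsMaximal := w.isMaximal
  have hpa : a ∈ p := haw
  have hpbot : p ≠ ⊥ := (w.under (𝓞 K)).ne_bot
  have hmapbot : p.map (algebraMap (𝓞 K) (𝓞 M)) ≠ ⊥ := by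
    rw [Ne, Ideal.map_eq_bot_iff_of_injective (FaithfulSMul.algebraMap_injective (𝓞 K) (𝓞 M))]
    exact hpbot
  have hfin := (w.irreducible.prime)
  -- the ramification index
  obtain ⟨e, he1, he2⟩ : ∃ e, w.asIdeal ^ e ∣ p.map (algebraMap (𝓞 K) (𝓞 M)) ∧
      ¬ w.asIdeal ^ (e + 1) ∣ p.map (algebraMap (𝓞 K) (𝓞 M)) := by
    have h1 : FiniteMultiplicity w.asIdeal (p.map (algebraMap (𝓞 K) (𝓞 M))) :=
      FiniteMultiplicity.of_prime_left w.prime hmapbot
    exact ⟨_, pow_multiplicity_dvd _ _, h1.not_pow_dvd_of_multiplicity_lt (Nat.lt_succ_self _)⟩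
  -- the exponent of the factorial
  have hfac : (((finrank K M).factorial : ℕ) : 𝓞 K) ≠ 0 := by
    exact_mod_cast Nat.factorial_ne_zero _
  obtain ⟨s, hs1, hs2⟩ : ∃ s, p ^ s ∣ Ideal.span {(((finrank K M).factorial : ℕ) : 𝓞 K)} ∧
      ¬ p ^ (s + 1) ∣ Ideal.span {(((finrank K M).factorial : ℕ) : 𝓞 K)} := by
    have h1 : FiniteMultiplicity p (Ideal.span {(((finrank K M).factorial : ℕ) : 𝓞 K)}) :=
      FiniteMultiplicity.of_prime_left (w.under (𝓞 K)).prime (by
        rw [Ne, Ideal.zero_eq_bot, Ideal.span_singleton_eq_bot]; exact hfac)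
    exact ⟨_, pow_multiplicity_dvd _ _, h1.not_pow_dvd_of_multiplicity_lt (Nat.lt_succ_self _)⟩
  have hfr : finrank (𝓞 K) (𝓞 M) = finrank K M := (IsFractionRing.finrank_eq (𝓞 K) K (𝓞 M) M).symm
  have h3 := Pool.Agent.Y729.DB.not_dvd_diff (A := 𝓞 K) (B := 𝓞 M) p (s := s + 1) (e := e)
    (Nat.succ_ne_zero s) w.asIdeal rfl he1 he2 (by
      rw [hfr]
      rwa [Ideal.dvd_span_singleton] at hs2)
  have h4 : k + 1 ≤ e * (s + 1) := by
    by_contra h5
    exact h3 ((pow_dvd_pow _ (by omega)).trans hk)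
  refine (pow_dvd_pow _ h4).trans ?_
  rw [pow_mul]
  refine (pow_dvd_pow_of_dvd he1 (s + 1)).trans ?_
  rw [← Ideal.map_pow, ← Set.image_singleton, ← Ideal.map_span]
  obtain ⟨J, hJ⟩ : p ^ (s + 1) ∣ Ideal.span {(((finrank K M).factorial : ℕ) : 𝓞 K) * a} := by
    rw [← Ideal.span_singleton_mul_span_singleton, pow_succ]
    exact mul_dvd_mul hs1 (Ideal.dvd_span_singleton.2 hpa)
  rw [hJ, Ideal.map_mul]
  exact dvd_mul_right _ _

open Classical in
/-- **The bound for the discriminant and the truncated counting function.** -/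
theorem total_bound (T : Finset (HeightOneSpectrum (𝓞 M))) {a : 𝓞 K} (ha : a ≠ 0)
    (hT : ∀ w ∈ T, algebraMap (𝓞 K) (𝓞 M) a ∈ w.asIdeal)
    (hD : ∀ w : HeightOneSpectrum (𝓞 M), w.asIdeal ∣ differentIdeal (𝓞 K) (𝓞 M) →
      algebraMap (𝓞 K) (𝓞 M) a ∈ w.asIdeal) :
    Real.log (Ideal.absNorm (differentIdeal (𝓞 K) (𝓞 M)) : ℝ) +
      ∑ w ∈ T, Real.log (Ideal.absNorm w.asIdeal : ℝ) ≤
      finrank K M * Real.log |((Algebra.norm ℚ
        ((((((finrank K M).factorial : ℕ) : 𝓞 K) * a : 𝓞 K)) : K) : ℚ) : ℝ)| := by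
  set b : 𝓞 K := (((finrank K M).factorial : ℕ) : 𝓞 K) * a with hb
  have hb0 : b ≠ 0 := mul_ne_zero (by exact_mod_cast Nat.factorial_ne_zero _) ha
  have hD0 : differentIdeal (𝓞 K) (𝓞 M) ≠ 0 := differentIdeal_ne_bot
  have hdvd : differentIdeal (𝓞 K) (𝓞 M) * ∏ w ∈ T, w.asIdeal ∣
      Ideal.span {algebraMap (𝓞 K) (𝓞 M) b} := by
    have hprod0 : ∏ w ∈ T, w.asIdeal ≠ 0 := Finset.prod_ne_zero_iff.2 fun w _ => w.ne_bot
    rw [UniqueFactorizationMonoid.dvd_iff_emultiplicity_le (mul_ne_zero hD0 hprod0)]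
    intro P hP
    have hPbot : P ≠ ⊥ := hP.ne_zero
    obtain ⟨w, hw⟩ : ∃ w : HeightOneSpectrum (𝓞 M), w.asIdeal = P :=
      ⟨⟨P, Ideal.isPrime_of_prime hP, hPbot⟩, rfl⟩
    rw [emultiplicity_mul hP, Finset.emultiplicity_prod hP]
    have hsum : ∑ x ∈ T, emultiplicity P x.asIdeal = if w ∈ T then 1 else 0 := by
      have h1 : ∀ x ∈ T, emultiplicity P x.asIdeal = if x = w then 1 else 0 := by
        intro x _
        split_ifs with hx
        · rw [hx, hw]
          exact (FiniteMultiplicity.of_prime_left hP hPbot).emultiplicity_self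
        · rw [emultiplicity_eq_zero]
          intro h2
          apply hx
          have h3 : x.asIdeal ≤ P := Ideal.dvd_iff_le.1 h2
          ext1
          rw [hw]
          exact (x.isMaximal.eq_of_le (Ideal.IsPrime.ne_top (Ideal.isPrime_of_prime hP)) h3)
      rw [Finset.sum_congr rfl h1, Finset.sum_ite_eq' T w fun _ => (1 : ℕ∞)]
    rw [hsum]
    by_cases hgood : w ∈ T ∨ w.asIdeal ∣ differentIdeal (𝓞 K) (𝓞 M)
    · have haw : algebraMap (𝓞 K) (𝓞 M) a ∈ w.asIdeal := by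
        rcases hgood with h | h
        · exact hT w h
        · exact hD w h
      have hfm : FiniteMultiplicity P (differentIdeal (𝓞 K) (𝓞 M)) :=
        FiniteMultiplicity.of_prime_left hP hD0
      rw [hfm.emultiplicity_eq_multiplicity]
      have h1 := diff_exp w haw (k := multiplicity P (differentIdeal (𝓞 K) (𝓞 M)))
        (by rw [hw]; exact pow_multiplicity_dvd _ _)
      rw [hw] at h1
      have h2 := le_emultiplicity_of_pow_dvd h1
      refine le_trans ?_ h2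
      push_cast
      gcongr
      split_ifs
      · exact le_rfl
      · exact zero_le_one
    · push Not at hgood
      rw [if_neg hgood.1, add_zero]
      have : emultiplicity P (differentIdeal (𝓞 K) (𝓞 M)) = 0 := by
        rw [emultiplicity_eq_zero, ← hw]
        exact hgood.2
      rw [this]
      exact zero_le
  have h1 := Ideal.absNorm_dvd_absNorm_of_le (Ideal.dvd_iff_le.1 hdvd)
  have hbM : algebraMap (𝓞 K) (𝓞 M) b ≠ 0 := by
    rwa [Ne, FaithfulSMul.algebraMap_eq_zero_iff]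
  have hpos : 0 < Ideal.absNorm (Ideal.span {algebraMap (𝓞 K) (𝓞 M) b}) := by
    rw [Nat.pos_iff_ne_zero, Ne, Ideal.absNorm_eq_zero_iff, Ideal.span_singleton_eq_bot]
    exact hbM
  have h2 := Nat.le_of_dvd hpos h1
  rw [map_mul, map_prod] at h2
  have hne : ∀ w ∈ T, (Ideal.absNorm w.asIdeal : ℝ) ≠ 0 := fun w _ => by
    exact_mod_cast (Ideal.absNorm_eq_zero_iff.not.2 w.ne_bot)
  have hDn : (Ideal.absNorm (differentIdeal (𝓞 K) (𝓞 M)) : ℝ) ≠ 0 := by
    exact_mod_cast (Ideal.absNorm_eq_zero_iff.not.2 hD0)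
  rw [← Real.log_prod hne, ← Real.log_mul hDn (Finset.prod_ne_zero_iff.2 hne)]
  have h3 : ((Ideal.absNorm (Ideal.span {algebraMap (𝓞 K) (𝓞 M) b}) : ℕ) : ℝ) =
      |((Algebra.norm ℚ (b : K) : ℚ) : ℝ)| ^ finrank K M := by
    rw [Ideal.absNorm_span_singleton, Nat.cast_natAbs]
    push_cast
    have h4 : ((Algebra.norm ℤ (algebraMap (𝓞 K) (𝓞 M) b) : ℤ) : ℚ) =
        Algebra.norm ℚ (algebraMap K M (b : K)) := by
      rw [Algebra.coe_norm_int]
      rfl
    have h5 : Algebra.norm ℚ (algebraMap K M (b : K)) =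
        (Algebra.norm ℚ (b : K)) ^ finrank K M := by
      rw [← Algebra.norm_norm (S := K), Algebra.norm_algebraMap, map_pow]
    rw [← abs_pow]
    congr 1
    rw [h5] at h4
    exact_mod_cast congrArg (fun x : ℚ => (x : ℝ)) h4
  rw [← Real.log_pow, ← h3]
  refine Real.log_le_log ?_ (by exact_mod_cast h2)
  have : 0 < (Ideal.absNorm (differentIdeal (𝓞 K) (𝓞 M)) : ℝ) :=
    lt_of_le_of_ne (Nat.cast_nonneg _) (Ne.symm hDn)
  refine mul_pos this (Finset.prod_pos fun w hw => ?_)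
  exact lt_of_le_of_ne (Nat.cast_nonneg _) (Ne.symm (hne w hw))

end Pool.Agent.H10UD
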