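import Mathlib

set_option autoImplicit false

/-!
Linear algebra: `n + 2` linear forms in `n + 1` variables in general position.
-/

namespace Pool.Agent.H10UD

open Module MvPolynomial

variable {K : Type} [Field K] {n : ℕ}

lemma gp_basis {L : Fin (n + 2) → Fin (n + 1) → K}
    (hL : ∀ s : Finset (Fin (n + 2)), s.card = n + 1 → LinearIndependent K fun i : s => L i) :
    LinearIndependent K (fun i : Fin (n + 1) => L i.succ) ∧
      ∃ b : Fin (n + 1) → K, (∀ i, b i ≠ 0) ∧ L 0 = ∑ i, b i • L i.succ := by
  classical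
  have h1 : LinearIndependent K (fun i : Fin (n + 1) => L i.succ) := by
    have h2 := hL (Finset.univ.image Fin.succ) (by
      rw [Finset.card_image_of_injective _ (Fin.succ_injective _), Finset.card_univ,
        Fintype.card_fin])
    have h3 := h2.comp (fun i : Fin (n + 1) =>
      (⟨i.succ, Finset.mem_image_of_mem _ (Finset.mem_univ i)⟩ :
        (Finset.univ.image Fin.succ : Finset (Fin (n + 2))))) (by
      intro i j hij
      exact Fin.succ_injective _ (congrArg Subtype.val hij))
    exact h3
  refine ⟨h1, ?_⟩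
  let bs := basisOfLinearIndependentOfCardEqFinrank h1 (by simp)
  have hbs : ∀ i, bs i = L i.succ := fun i => by
    simp [bs]
  refine ⟨fun i => bs.repr (L 0) i, ?_, ?_⟩
  · intro i0 hi0
    have hsum : L 0 = ∑ i, bs.repr (L 0) i • L i.succ := by
      conv_lhs => rw [← bs.sum_repr (L 0)]
      exact Finset.sum_congr rfl fun i _ => by rw [hbs]
    have h2 := hL (Finset.univ.erase i0.succ) (by
      rw [Finset.card_erase_of_mem (Finset.mem_univ _), Finset.card_univ, Fintype.card_fin]
      omega)
    rw [Fintype.linearIndependent_iff] at h2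
    have h3 := h2 (fun i => Fin.cases (-1) (fun j => bs.repr (L 0) j) (i : Fin (n + 2))) (by
      have h4 : ∑ i : (Finset.univ.erase i0.succ : Finset (Fin (n + 2))),
          (Fin.cases (-1 : K) (fun j => bs.repr (L 0) j) (i : Fin (n + 2)) : K) • L i =
          ∑ i ∈ Finset.univ.erase i0.succ,
            (Fin.cases (-1 : K) (fun j => bs.repr (L 0) j) i : K) • L i :=
        Finset.sum_coe_sort (Finset.univ.erase i0.succ)
          (fun i => (Fin.cases (-1 : K) (fun j => bs.repr (L 0) j) i : K) • L i)
      rw [h4]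
      have h5 : ∑ i : Fin (n + 2), (Fin.cases (-1 : K) (fun j => bs.repr (L 0) j) i : K) • L i
          = 0 := by
        rw [Fin.sum_univ_succ]
        simp only [Fin.cases_zero, Fin.cases_succ]
        rw [← hsum]
        simp
      rw [← Finset.add_sum_erase _ _ (Finset.mem_univ i0.succ)] at h5
      simp only [Fin.cases_succ] at h5
      have hi1 : bs.repr (L 0) i0 = 0 := hi0
      rw [hi1, zero_smul, zero_add] at h5
      exact h5)
    have h6 := h3 ⟨0, Finset.mem_erase.2 ⟨(Fin.succ_ne_zero i0).symm, Finset.mem_univ _⟩⟩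
    simp at h6
  · conv_lhs => rw [← bs.sum_repr (L 0)]
    exact Finset.sum_congr rfl fun i _ => by rw [hbs]

/-- the linear substitution with the matrix `Q` -/
noncomputable def subst (Q : Matrix (Fin (n + 1)) (Fin (n + 1)) K)
    (G : MvPolynomial (Fin (n + 1)) K) : MvPolynomial (Fin (n + 1)) K :=
  bind₁ (fun i => ∑ j, C (Q i j) * X j) G

lemma subst_hom (Q : Matrix (Fin (n + 1)) (Fin (n + 1)) K) {G : MvPolynomial (Fin (n + 1)) K}
    {d : ℕ} (hG : G.IsHomogeneous d) : (subst Q G).IsHomogeneous d := by
  unfold subst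
  have h1 : ∀ i, (∑ j, C (Q i j) * X j : MvPolynomial (Fin (n + 1)) K).IsHomogeneous 1 := by
    intro i
    refine IsHomogeneous.sum _ _ _ fun j _ => ?_
    have := (isHomogeneous_C (Fin (n + 1)) (Q i j)).mul (isHomogeneous_X K j)
    rwa [zero_add] at this
  have := hG.aeval (fun i => (∑ j, C (Q i j) * X j : MvPolynomial (Fin (n + 1)) K)) h1
  rw [one_mul] at this
  exact this

lemma subst_ne {Q Q' : Matrix (Fin (n + 1)) (Fin (n + 1)) K} (hQ : Q * Q' = 1)
    {G : MvPolynomial (Fin (n + 1)) K} (hG : G ≠ 0) : subst Q G ≠ 0 := by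
  intro h
  apply hG
  have h1 : subst Q' (subst Q G) = G := by
    unfold subst
    rw [bind₁_bind₁]
    have h2 : (fun i => bind₁ (fun i => ∑ j, C (Q' i j) * X j : Fin (n + 1) →
        MvPolynomial (Fin (n + 1)) K) (∑ j, C (Q i j) * X j)) = X := by
      funext i
      rw [map_sum]
      have h3 : ∀ j, bind₁ (fun i => ∑ j, C (Q' i j) * X j : Fin (n + 1) →
          MvPolynomial (Fin (n + 1)) K) (C (Q i j) * X j) =
          ∑ k, C (Q i j * Q' j k) * X k := by
        intro j
        rw [map_mul, bind₁_X_right, Finset.mul_sum]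
        refine Finset.sum_congr rfl fun k _ => ?_
        rw [algHom_C, C_mul, mul_assoc]
        rfl
      rw [Finset.sum_congr rfl fun j _ => h3 j, Finset.sum_comm]
      have h4 : ∀ k, ∑ j, C (Q i j * Q' j k) * X k =
          (C ((1 : Matrix (Fin (n + 1)) (Fin (n + 1)) K) i k) * X k :
            MvPolynomial (Fin (n + 1)) K) := by
        intro k
        rw [← Finset.sum_mul, ← map_sum, ← hQ, Matrix.mul_apply]
      rw [Finset.sum_congr rfl fun k _ => h4 k]
      rw [Finset.sum_eq_single i]
      · rw [Matrix.one_apply_eq, C_1, one_mul]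
      · intro k _ hk
        rw [Matrix.one_apply_ne (Ne.symm hk), C_0, zero_mul]
      · intro h; exact absurd (Finset.mem_univ i) h
    rw [h2]
    rw [bind₁_X_left]
    rfl
  rw [← h1, h]
  unfold subst
  exact map_zero _

lemma aeval_subst {M : Type} [Field M] [Algebra K M]
    (Q : Matrix (Fin (n + 1)) (Fin (n + 1)) K) (G : MvPolynomial (Fin (n + 1)) K)
    (y : Fin (n + 1) → M) :
    aeval y (subst Q G) = aeval ((Q.map (algebraMap K M)).mulVec y) G := by
  unfold subst
  rw [aeval_bind₁]
  congr 1
  congr 1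
  funext i
  rw [map_sum]
  unfold Matrix.mulVec dotProduct
  refine Finset.sum_congr rfl fun j _ => ?_
  rw [map_mul, aeval_C, aeval_X]
  rfl

end Pool.Agent.H10UD
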