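import Mathlib
import Pool.Agent.W231.V.Ht
import Pool.Agent.Y733.VR.Ht

set_option autoImplicit false

/-!
Comparison of heights place by place.
-/

namespace Pool.Agent.H10UD

open NumberField IsDedekindDomain Module Height Pool.Agent.W231.V Pool.Agent.Y733.VR

variable {M : Type} [Field M] [NumberField M] {ι κ : Type*} [Finite ι] [Nonempty ι] [Finite κ]
  [Nonempty κ]

lemma finite_iSup {x : ι → M} (hx : x ≠ 0) :
    {v : HeightOneSpectrum (𝓞 M) | (⨆ i, fv v (x i)) ≠ 1}.Finite := by
  have h1 : (⋃ i : {i // x i ≠ 0}, {v : HeightOneSpectrum (𝓞 M) | fv v (x i.1) ≠ 1}).Finite :=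
    Set.finite_iUnion fun i => fv_support_finite i.2
  refine h1.subset ?_
  intro v hv
  by_contra h
  apply hv
  simp only [Set.mem_iUnion, not_exists, Set.mem_ofPred_eq, not_not] at h
  obtain ⟨i0, hi0⟩ := Function.ne_iff.1 hx
  refine le_antisymm (ciSup_le fun i => ?_) ?_
  · by_cases hi : x i = 0
    · rw [hi, map_zero]; exact zero_le_one
    · exact (h ⟨i, hi⟩).le
  · rw [← h ⟨i0, hi0⟩]
    exact le_ciSup (f := fun i => fv v (x i)) (Set.finite_range _).bddAbove i0

lemma iSup_fv_pos {x : ι → M} (hx : x ≠ 0) (v : HeightOneSpectrum (𝓞 M)) :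
    0 < ⨆ i, fv v (x i) := by
  obtain ⟨i0, hi0⟩ := Function.ne_iff.1 hx
  exact lt_of_lt_of_le ((fv v).pos hi0) (le_ciSup (f := fun i => fv v (x i))
    (Set.finite_range _).bddAbove i0)

lemma iSup_inf_pos {x : ι → M} (hx : x ≠ 0) (w : InfinitePlace M) :
    0 < ⨆ i, w (x i) := by
  obtain ⟨i0, hi0⟩ := Function.ne_iff.1 hx
  exact lt_of_lt_of_le (w.pos_iff.2 hi0) (le_ciSup (f := fun i => w (x i))
    (Set.finite_range _).bddAbove i0)

lemma logHeight_form {x : ι → M} (hx : x ≠ 0) : logHeight x =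
    ∑ w : InfinitePlace M, (w.mult : ℝ) * Real.log (⨆ i, w (x i)) +
      ∑ᶠ v : HeightOneSpectrum (𝓞 M), Real.log (⨆ i, fv v (x i)) := by
  rw [logHeight_eq_log_mulHeight, NumberField.mulHeight_eq hx]
  have h1 : (∏ᶠ v : FinitePlace M, ⨆ i, v (x i)) =
      ∏ᶠ v : HeightOneSpectrum (𝓞 M), ⨆ i, fv v (x i) := by
    rw [← finprod_comp_equiv (FinitePlace.equivHeightOneSpectrum (K := M)).symm]
    rfl
  have hfin := finite_iSup hx
  have h2 : (∏ᶠ v : HeightOneSpectrum (𝓞 M), ⨆ i, fv v (x i)) =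
      ∏ v ∈ hfin.toFinset, ⨆ i, fv v (x i) := by
    refine finprod_eq_prod_of_mulSupport_subset _ ?_
    intro v hv
    simpa using hv
  have h3 : (∑ᶠ v : HeightOneSpectrum (𝓞 M), Real.log (⨆ i, fv v (x i))) =
      ∑ v ∈ hfin.toFinset, Real.log (⨆ i, fv v (x i)) := by
    refine finsum_eq_sum_of_support_subset _ ?_
    intro v hv
    simp only [Function.mem_support] at hv
    simp only [Set.Finite.coe_toFinset, Set.mem_ofPred_eq]
    intro h
    rw [h] at hv
    exact hv Real.log_one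
  rw [h1, h2, h3, Real.log_mul, Real.log_prod, Real.log_prod]
  · congr 1
    refine Finset.sum_congr rfl fun w _ => ?_
    rw [Real.log_pow]
  · intro v _
    exact (iSup_fv_pos hx v).ne'
  · intro w _
    exact pow_ne_zero _ (iSup_inf_pos hx w).ne'
  · exact Finset.prod_ne_zero_iff.2 fun w _ => pow_ne_zero _ (iSup_inf_pos hx w).ne'
  · exact Finset.prod_ne_zero_iff.2 fun v _ => (iSup_fv_pos hx v).ne'

lemma prod_form {u : M} (hu : u ≠ 0) :
    ∑ w : InfinitePlace M, (w.mult : ℝ) * Real.log (w u) +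
      ∑ᶠ v : HeightOneSpectrum (𝓞 M), Real.log (fv v u) = 0 := by
  have h := logHeight_form (M := M) (x := fun _ : Fin 1 => u)
    (fun h => hu (congrFun h 0))
  rw [logHeight_eq_zero_of_subsingleton] at h
  simpa using h.symm

lemma sum_mult_eq : ∑ w : InfinitePlace M, (w.mult : ℝ) = finrank ℚ M := by
  have := InfinitePlace.sum_mult_eq (K := M)
  exact_mod_cast this

theorem height_cmp {x : ι → M} {y : κ → M} (hx : x ≠ 0) (hy : y ≠ 0) {C : ℝ} (hC : 0 < C)
    (hinf : ∀ (w : InfinitePlace M) i, w (x i) ≤ C * ⨆ j, w (y j))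
    (hfin : ∀ (v : HeightOneSpectrum (𝓞 M)) i, fv v (x i) ≤ ⨆ j, fv v (y j)) :
    logHeight x ≤ logHeight y + finrank ℚ M * Real.log C := by
  rw [logHeight_form hx, logHeight_form hy]
  have h1 : ∑ w : InfinitePlace M, (w.mult : ℝ) * Real.log (⨆ i, w (x i)) ≤
      ∑ w : InfinitePlace M, (w.mult : ℝ) * Real.log (⨆ i, w (y i)) +
        finrank ℚ M * Real.log C := by
    rw [← sum_mult_eq, Finset.sum_mul, ← Finset.sum_add_distrib]
    refine Finset.sum_le_sum fun w _ => ?_
    rw [← mul_add]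
    refine mul_le_mul_of_nonneg_left ?_ (Nat.cast_nonneg _)
    rw [add_comm, ← Real.log_mul hC.ne' (iSup_inf_pos hy w).ne']
    exact Real.log_le_log (iSup_inf_pos hx w) (ciSup_le (hinf w))
  have h2 : ∑ᶠ v : HeightOneSpectrum (𝓞 M), Real.log (⨆ i, fv v (x i)) ≤
      ∑ᶠ v : HeightOneSpectrum (𝓞 M), Real.log (⨆ i, fv v (y i)) := by
    classical
    rw [finsum_eq_sum_of_support_subset (s := (finite_iSup hx).toFinset ∪ (finite_iSup hy).toFinset)
      (fun v => Real.log (⨆ i, fv v (x i))), finsum_eq_sum_of_support_subset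
      (s := (finite_iSup hx).toFinset ∪ (finite_iSup hy).toFinset)
      (fun v => Real.log (⨆ i, fv v (y i)))]
    · exact Finset.sum_le_sum fun v _ =>
        Real.log_le_log (iSup_fv_pos hx v) (ciSup_le (hfin v))
    · intro v hv
      have : (⨆ i, fv v (y i)) ≠ 1 := fun h => hv (by simp only [h, Real.log_one])
      simp [this]
    · intro v hv
      have : (⨆ i, fv v (x i)) ≠ 1 := fun h => hv (by simp only [h, Real.log_one])
      simp [this]
  linarith

/-- the primes at which a value is smaller than expected -/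
theorem count_le {x : ι → M} (hx : x ≠ 0) {u : M} (hu : u ≠ 0) (e : ℕ) {C : ℝ} (hC : 0 < C)
    (hinf : ∀ w : InfinitePlace M, w u ≤ C * (⨆ j, w (x j)) ^ e)
    (hfin : ∀ v : HeightOneSpectrum (𝓞 M), fv v u ≤ (⨆ j, fv v (x j)) ^ e)
    (T : Finset (HeightOneSpectrum (𝓞 M)))
    (hT : ∀ v ∈ T, fv v u < (⨆ j, fv v (x j)) ^ e) :
    ∑ v ∈ T, ell v ≤ e * logHeight x + finrank ℚ M * Real.log C := by
  classical
  have hp := prod_form hu
  rw [logHeight_form hx]
  have h1 : ∑ w : InfinitePlace M, (w.mult : ℝ) * Real.log (w u) ≤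
      e * ∑ w : InfinitePlace M, (w.mult : ℝ) * Real.log (⨆ i, w (x i)) +
        finrank ℚ M * Real.log C := by
    rw [← sum_mult_eq, Finset.sum_mul, Finset.mul_sum, ← Finset.sum_add_distrib]
    refine Finset.sum_le_sum fun w _ => ?_
    have h2 : Real.log (w u) ≤ Real.log C + e * Real.log (⨆ i, w (x i)) := by
      rw [← Real.log_pow, ← Real.log_mul hC.ne' (pow_pos (iSup_inf_pos hx w) _).ne']
      exact Real.log_le_log (w.pos_iff.2 hu) (hinf w)
    have h3 := mul_le_mul_of_nonneg_left h2 (Nat.cast_nonneg (α := ℝ) w.mult)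
    linarith
  set F : Finset (HeightOneSpectrum (𝓞 M)) :=
    (finite_iSup hx).toFinset ∪ (fv_support_finite hu).toFinset ∪ T with hF
  have h4 : ∑ᶠ v : HeightOneSpectrum (𝓞 M), Real.log (⨆ i, fv v (x i)) =
      ∑ v ∈ F, Real.log (⨆ i, fv v (x i)) := by
    refine finsum_eq_sum_of_support_subset _ ?_
    intro v hv
    have : (⨆ i, fv v (x i)) ≠ 1 := fun h => hv (by simp only [h, Real.log_one])
    simp [hF, this]
  have h5 : ∑ᶠ v : HeightOneSpectrum (𝓞 M), Real.log (fv v u) = ∑ v ∈ F, Real.log (fv v u) := by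
    refine finsum_eq_sum_of_support_subset _ ?_
    intro v hv
    have : fv v u ≠ 1 := fun h => hv (by simp only [h, Real.log_one])
    simp [hF, this]
  have h6 : ∑ v ∈ F, Real.log (fv v u) + ∑ v ∈ T, ell v ≤
      e * ∑ v ∈ F, Real.log (⨆ i, fv v (x i)) := by
    have h7 : ∑ v ∈ T, ell v = ∑ v ∈ F, if v ∈ T then ell v else 0 := by
      rw [← Finset.sum_filter]
      congr 1
      ext v
      simp [hF]
      tauto
    rw [h7, Finset.mul_sum, ← Finset.sum_add_distrib]
    refine Finset.sum_le_sum fun v _ => ?_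
    rw [← Real.log_pow]
    split_ifs with hvT
    · have h8 := hT v hvT
      obtain ⟨i, hi⟩ : ∃ i, fv v (x i) = ⨆ j, fv v (x j) := exists_eq_ciSup_of_finite
      rw [← hi] at h8 ⊢
      have hxi : x i ≠ 0 := by
        intro h0
        have := iSup_fv_pos hx v
        rw [← hi, h0, map_zero] at this
        exact lt_irrefl _ this
      have hr : x i ^ e / u ≠ 0 := div_ne_zero (pow_ne_zero _ hxi) hu
      obtain ⟨k, hk⟩ := fv_zpow v hr
      have hu' := (fv v).pos hu
      have h9 : 1 < fv v (x i ^ e / u) := by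
        rw [map_div₀, map_pow, lt_div_iff₀ hu', one_mul]
        exact h8
      have hN := one_lt_norm v
      have hk1 : 1 ≤ k := by
        by_contra h
        rw [hk] at h9
        have := zpow_le_one_of_nonpos₀ hN.le (by omega : k ≤ 0)
        linarith
      have h10 : ell v ≤ Real.log (fv v (x i ^ e / u)) := by
        rw [hk, Real.log_zpow]
        have h11 : (1 : ℝ) ≤ k := by exact_mod_cast hk1
        have := ell_pos v
        change ell v ≤ k * ell v
        nlinarith
      rw [map_div₀, map_pow, Real.log_div (pow_pos ((fv v).pos hxi) _).ne' hu'.ne'] at h10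
      linarith
    · rw [add_zero]
      exact Real.log_le_log ((fv v).pos hu) (hfin v)
  rw [h5] at hp
  rw [h4]
  linarith

end Pool.Agent.H10UD
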