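import Mathlib
import Pool.Agent.Y729.DB.Diff
import Pool.Agent.Y733.VR.Disc

set_option autoImplicit false

/-!
Towers of square roots: degrees and ramification.
-/

namespace Pool.Agent.H10UD

open NumberField IsDedekindDomain Module IntermediateField Polynomial Pool.Agent.Y733.VR

variable {K M : Type} [Field K] [NumberField K] [Field M] [NumberField M] [Algebra K M]

lemma wz_one {x : WithZero (Multiplicative ℤ)} {e : ℕ} (he : e ≠ 0) (h : x ^ e = 1) : x = 1 :=
  le_antisymm ((pow_le_one_iff he).1 h.le) ((one_le_pow_iff he).1 h.ge)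

lemma val_under (w : HeightOneSpectrum (𝓞 M)) : ∃ e : ℕ, e ≠ 0 ∧ ∀ x : K,
    ((w.under (𝓞 K)).valuation K x) ^ e = w.valuation M (algebraMap K M x) := by
  have : w.asIdeal.LiesOver (w.under (𝓞 K)).asIdeal := ⟨rfl⟩
  exact ⟨_, Ideal.IsDedekindDomain.ramificationIdx'_ne_zero_of_liesOver w.asIdeal
    (w.under (𝓞 K)).ne_bot, fun x => HeightOneSpectrum.valuation_liesOver M (w.under (𝓞 K)) w x⟩

lemma val_under_le (w : HeightOneSpectrum (𝓞 M)) {x : K}
    (h : w.valuation M (algebraMap K M x) ≤ 1) : (w.under (𝓞 K)).valuation K x ≤ 1 := by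
  obtain ⟨e, he, h1⟩ := val_under (K := K) w
  rw [← h1] at h
  exact (pow_le_one_iff he).1 h

lemma sqrt_unr (w : HeightOneSpectrum (𝓞 M)) {z : M} {W : K} (hz : z ^ 2 = algebraMap K M W)
    (htop : K⟮z⟯ = ⊤) (h2 : w.valuation M 2 = 1) (hw : w.valuation M z = 1) :
    ¬ w.asIdeal ∣ differentIdeal (𝓞 K) (𝓞 M) := by
  have hW : (w.under (𝓞 K)).valuation K W ≤ 1 := by
    apply val_under_le
    rw [← hz, map_pow, hw, one_pow]
  obtain ⟨a, ⟨b, hb⟩, hab⟩ := HeightOneSpectrum.exists_primeCompl_mul_eq_of_integer _ W hW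
  simp only at hab
  have hbw : algebraMap (𝓞 K) (𝓞 M) b ∉ w.asIdeal := hb
  have hb0 : (b : K) ≠ 0 := by
    intro h
    rw [RingOfIntegers.coe_eq_zero_iff] at h
    apply hbw
    rw [h, map_zero]
    exact zero_mem _
  have hbM : algebraMap K M (b : K) ≠ 0 := by
    rwa [Ne, FaithfulSMul.algebraMap_eq_zero_iff]
  have hsq : (algebraMap K M (b : K) * z) ^ 2 = algebraMap K M ((a * b : 𝓞 K) : K) := by
    rw [mul_pow, hz, ← map_pow, ← map_mul]
    congr 1
    have h1 : W * (b : K) = (a : K) := hab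
    push_cast
    linear_combination (b : K) * h1
  have hint : IsIntegral ℤ (algebraMap K M (b : K) * z) := IsIntegral.of_pow (n := 2) two_pos (by
    rw [hsq]
    exact (RingOfIntegers.isIntegral_coe (a * b)).map (algebraMap K M).toIntAlgHom)
  obtain ⟨β, hβ⟩ : ∃ β : 𝓞 M, (β : M) = algebraMap K M (b : K) * z := ⟨⟨_, hint⟩, rfl⟩
  have htop' : K⟮(β : M)⟯ = ⊤ := by
    rw [hβ, eq_top_iff, ← htop, adjoin_simple_le_iff]
    have h1 : algebraMap K M (b : K) * z ∈ K⟮algebraMap K M (b : K) * z⟯ :=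
      mem_adjoin_simple_self K _
    have h2 : algebraMap K M (b : K) ∈ K⟮algebraMap K M (b : K) * z⟯ :=
      IntermediateField.algebraMap_mem _ _
    have h3 := div_mem h1 h2
    rwa [mul_div_cancel_left₀ _ hbM] at h3
  have hroot : aeval β (X ^ 2 - C (a * b) : (𝓞 K)[X]) = 0 := by
    apply RingOfIntegers.coe_injective
    rw [map_sub, map_pow, aeval_X, aeval_C, map_sub, map_pow, map_zero]
    have h3 : algebraMap (𝓞 M) M (algebraMap (𝓞 K) (𝓞 M) (a * b)) =
      algebraMap K M ((a * b : 𝓞 K) : K) := rfl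
    have h4 : algebraMap (𝓞 M) M β = algebraMap K M (b : K) * z := hβ
    rw [h3, ← hsq, h4]
    exact sub_self _
  have hder : aeval β (derivative (X ^ 2 - C (a * b) : (𝓞 K)[X])) = 2 * β := by
    simp
    left
    norm_num
  have hmem := deriv_mem K M β htop' (X ^ 2 - C (a * b)) hroot
  rw [hder] at hmem
  intro hdvd
  have h5 : (2 * β : 𝓞 M) ∈ w.asIdeal := (Ideal.dvd_iff_le.1 hdvd) hmem
  have h6 : w.valuation M ((2 * β : 𝓞 M) : M) < 1 := (w.valuation_lt_one_iff_mem (2 * β)).2 h5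
  have h7 : ((2 * β : 𝓞 M) : M) = 2 * (algebraMap K M (b : K) * z) := by
    rw [← hβ]; push_cast; rfl
  have h8 : w.valuation M (algebraMap K M (b : K)) = 1 := by
    have : algebraMap K M (b : K) = algebraMap (𝓞 M) M (algebraMap (𝓞 K) (𝓞 M) b) := rfl
    rw [this, HeightOneSpectrum.valuation_eq_one_iff_notMem]
    exact hbw
  rw [h7, map_mul, map_mul, h2, h8, hw] at h6
  simp at h6

/-- A chain of square roots: `u 0 ^ 2 = W` and `u (j + 1) ^ 2 = 4 u j / (1 + u j) ^ 2`. -/
def Chain {F : Type} [Field F] (m : ℕ) (W : F) (u : ℕ → F) : Prop :=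
  u 0 ^ 2 = W ∧ ∀ j < m, u (j + 1) ^ 2 = 4 * u j / (1 + u j) ^ 2

lemma Chain.tail {F : Type} [Field F] {m : ℕ} {W : F} {u : ℕ → F} (h : Chain (m + 1) W u) :
    Chain m (4 * u 0 / (1 + u 0) ^ 2) (fun j => u (j + 1)) :=
  ⟨h.2 0 (by omega), fun j hj => h.2 (j + 1) (by omega)⟩

lemma numberField_of (E : IntermediateField K M) : NumberField E :=
  NumberField.of_module_finite K E

lemma adjoin_gen_top (x : M) :
    IntermediateField.adjoin K {(⟨x, mem_adjoin_simple_self K x⟩ : K⟮x⟯)} = ⊤ := by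
  apply IntermediateField.lift_injective
  rw [IntermediateField.lift_adjoin, IntermediateField.lift_top]
  simp

lemma adjoin_tail {m : ℕ} {u : ℕ → M} (h : IntermediateField.adjoin K (u '' Set.Iic (m + 1)) = ⊤) :
    IntermediateField.adjoin K⟮u 0⟯ ((fun j => u (j + 1)) '' Set.Iic m) = ⊤ := by
  have h1 := IntermediateField.adjoin_adjoin_left K {u 0} ((fun j => u (j + 1)) '' Set.Iic m)
  have h2 : ({u 0} ∪ (fun j => u (j + 1)) '' Set.Iic m) = u '' Set.Iic (m + 1) := by
    ext x
    constructor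
    · rintro (h | ⟨j, hj, rfl⟩)
      · exact ⟨0, by simp, by simpa [eq_comm] using h⟩
      · exact ⟨j + 1, by simpa using hj, rfl⟩
    · rintro ⟨j, hj, rfl⟩
      rcases j with _ | j
      · exact Or.inl rfl
      · exact Or.inr ⟨j, by simpa using hj, rfl⟩
  rw [h2, h] at h1
  rw [eq_top_iff]
  intro x _
  have : x ∈ (IntermediateField.adjoin (IntermediateField.adjoin K {u 0})
      ((fun j => u (j + 1)) '' Set.Iic m)).restrictScalars K := by rw [h1]; trivial
  exact this

theorem chain_unr (m : ℕ) : ∀ (K M : Type) [Field K] [NumberField K] [Field M] [NumberField M]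
    [Algebra K M] (W : K) (u : ℕ → M), Chain m (algebraMap K M W) u →
    IntermediateField.adjoin K (u '' Set.Iic m) = ⊤ →
    ∀ w : HeightOneSpectrum (𝓞 M), w.valuation M 2 = 1 → (∀ j ≤ m, w.valuation M (u j) = 1) →
      ¬ w.asIdeal ∣ differentIdeal (𝓞 K) (𝓞 M) := by
  induction m with
  | zero =>
    intro K M _ _ _ _ _ W u hu htop w h2 hw
    refine sqrt_unr w (W := W) hu.1 ?_ h2 (hw 0 le_rfl)
    rw [← htop]
    congr 1
    ext x
    simp [eq_comm]
  | succ m ih =>
    intro K M _ _ _ _ _ W u hu htop w h2 hw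
    have hNF : NumberField K⟮u 0⟯ := numberField_of _
    have hmem : u 0 ∈ K⟮u 0⟯ := mem_adjoin_simple_self K _
    obtain ⟨g, hg⟩ : ∃ g : K⟮u 0⟯, (g : M) = u 0 := ⟨⟨_, hmem⟩, rfl⟩
    have h0 := ih K⟮u 0⟯ M (4 * g / (1 + g) ^ 2) (fun j => u (j + 1)) (by
        have h3 := hu.tail
        have h4 : algebraMap K⟮u 0⟯ M (4 * g / (1 + g) ^ 2) = 4 * u 0 / (1 + u 0) ^ 2 := by
          rw [map_div₀, map_mul, map_pow, map_add, map_one]
          have : algebraMap K⟮u 0⟯ M g = u 0 := hg
          rw [this]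
          congr 2
        rw [h4]
        exact h3) (adjoin_tail htop) w h2
        (fun j hj => hw (j + 1) (by omega))
    have h1 : ¬ (w.under (𝓞 K⟮u 0⟯)).asIdeal ∣ differentIdeal (𝓞 K) (𝓞 K⟮u 0⟯) := by
      obtain ⟨e, he, hv⟩ := val_under (K := K⟮u 0⟯) w
      refine sqrt_unr (w.under (𝓞 K⟮u 0⟯)) (z := g) (W := W) ?_ ?_ ?_ ?_
      · apply Subtype.ext
        push_cast
        rw [hg, hu.1]
      · have := adjoin_gen_top (K := K) (u 0)
        convert this
      · have h3 := hv 2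
        have h4 : algebraMap K⟮u 0⟯ M 2 = 2 := map_ofNat _ 2
        rw [h4, h2] at h3
        exact wz_one he h3
      · have h3 := hv g
        have : algebraMap K⟮u 0⟯ M g = u 0 := hg
        rw [this, hw 0 (by omega)] at h3
        exact wz_one he h3
    rw [differentIdeal_eq_differentIdeal_mul_differentIdeal (𝓞 K) (𝓞 K⟮u 0⟯) (𝓞 M)]
    intro hdvd
    rcases (w.prime.dvd_or_dvd hdvd) with h3 | h3
    · exact h0 h3
    · apply h1
      rw [Ideal.dvd_iff_le, Ideal.map_le_iff_le_comap] at h3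
      rw [Ideal.dvd_iff_le]
      exact h3

theorem chain_deg (m : ℕ) : ∀ (K M : Type) [Field K] [NumberField K] [Field M] [NumberField M]
    [Algebra K M] (W : K) (u : ℕ → M), Chain m (algebraMap K M W) u →
    IntermediateField.adjoin K (u '' Set.Iic m) = ⊤ → finrank K M ≤ 2 ^ (m + 1) := by
  have key : ∀ (K M : Type) [Field K] [NumberField K] [Field M] [NumberField M]
      [Algebra K M] (z : M) (W : K), z ^ 2 = algebraMap K M W → finrank K K⟮z⟯ ≤ 2 := by
    intro K M _ _ _ _ _ z W hz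
    have hint : IsIntegral K z := Algebra.IsIntegral.isIntegral z
    rw [IntermediateField.adjoin.finrank hint]
    have h1 : (X ^ 2 - C W : K[X]).natDegree = 2 := natDegree_X_pow_sub_C
    rw [← h1]
    refine natDegree_le_of_dvd (minpoly.dvd K z ?_) ?_
    · rw [map_sub, map_pow, aeval_X, aeval_C, hz, sub_self]
    · exact (monic_X_pow_sub_C W two_ne_zero).ne_zero
  induction m with
  | zero =>
    intro K M _ _ _ _ _ W u hu htop
    have h1 := key K M (u 0) W hu.1
    have h2 : K⟮u 0⟯ = ⊤ := by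
      rw [← htop]
      congr 1
      ext x
      simp [eq_comm]
    rw [h2] at h1
    rw [IntermediateField.finrank_top'] at h1
    simpa using h1
  | succ m ih =>
    intro K M _ _ _ _ _ W u hu htop
    have hNF : NumberField K⟮u 0⟯ := numberField_of _
    have hmem : u 0 ∈ K⟮u 0⟯ := mem_adjoin_simple_self K _
    obtain ⟨g, hg⟩ : ∃ g : K⟮u 0⟯, (g : M) = u 0 := ⟨⟨_, hmem⟩, rfl⟩
    have h0 := ih K⟮u 0⟯ M (4 * g / (1 + g) ^ 2) (fun j => u (j + 1)) (by
        have h3 := hu.tail
        have h4 : algebraMap K⟮u 0⟯ M (4 * g / (1 + g) ^ 2) = 4 * u 0 / (1 + u 0) ^ 2 := by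
          rw [map_div₀, map_mul, map_pow, map_add, map_one]
          have : algebraMap K⟮u 0⟯ M g = u 0 := hg
          rw [this]
          congr 2
        rw [h4]
        exact h3) (adjoin_tail htop)
    have h1 := key K M (u 0) W hu.1
    rw [← finrank_mul_finrank K K⟮u 0⟯ M]
    calc finrank K K⟮u 0⟯ * finrank K⟮u 0⟯ M ≤ 2 * 2 ^ (m + 1) := Nat.mul_le_mul h1 h0
      _ = 2 ^ (m + 1 + 1) := by ring

/-- the field of a chain -/
theorem exists_chain (K : Type) [Field K] [NumberField K] (W : K) (m : ℕ) :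
    ∃ (M : Type) (_ : Field M) (_ : NumberField M) (_ : Algebra K M) (u : ℕ → M),
      Chain m (algebraMap K M W) u ∧ IntermediateField.adjoin K (u '' Set.Iic m) = ⊤ := by
  classical
  have hsq : ∀ x : AlgebraicClosure K, ∃ z, z ^ 2 = x := fun x =>
    IsAlgClosed.exists_pow_nat_eq x two_pos
  choose r hr using hsq
  let v : ℕ → AlgebraicClosure K := fun n =>
    Nat.rec (r (algebraMap K _ W)) (fun _ x => r (4 * x / (1 + x) ^ 2)) n
  have hv0 : v 0 ^ 2 = algebraMap K _ W := hr _
  have hv : ∀ j, v (j + 1) ^ 2 = 4 * v j / (1 + v j) ^ 2 := fun j => hr _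
  let E : IntermediateField K (AlgebraicClosure K) := IntermediateField.adjoin K (v '' Set.Iic m)
  have hfd : FiniteDimensional K E := by
    refine IntermediateField.finiteDimensional_adjoin fun x _ => ?_
    exact Algebra.IsIntegral.isIntegral x
  have hNF : NumberField E := NumberField.of_module_finite K E
  have hmem : ∀ j ≤ m, v j ∈ E := fun j hj => IntermediateField.subset_adjoin K _ ⟨j, hj, rfl⟩
  refine ⟨E, inferInstance, hNF, inferInstance, fun j => if h : j ≤ m then ⟨v j, hmem j h⟩ else 0,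
    ⟨?_, ?_⟩, ?_⟩
  · apply Subtype.ext
    simpa using hv0
  · intro j hj
    apply Subtype.ext
    have h1 : j ≤ m := hj.le
    have h2 : j + 1 ≤ m := hj
    simp only [h1, h2, dif_pos]
    push_cast
    exact hv j
  · apply IntermediateField.lift_injective
    rw [IntermediateField.lift_adjoin, IntermediateField.lift_top]
    congr 1
    ext x
    constructor
    · rintro ⟨_, ⟨j, hj, rfl⟩, rfl⟩
      refine ⟨j, hj, ?_⟩
      have h1 : j ≤ m := hj
      simp only [h1, dif_pos]
    · rintro ⟨j, hj, rfl⟩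
      refine ⟨_, ⟨j, hj, rfl⟩, ?_⟩
      have h1 : j ≤ m := hj
      simp only [h1, dif_pos]

end Pool.Agent.H10UD
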