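import Mathlib
import Pool.Agent.H10UD.Unr
import Pool.Agent.H10UD.Hts
import Pool.Agent.H10VJ.Form

set_option autoImplicit false

/-!
Local analysis of the chain of square roots.
-/

namespace Pool.Agent.H10UD

open NumberField IsDedekindDomain Module Height Pool.Agent.W231.V Pool.Agent.Y733.VR

variable {M : Type} [Field M] [NumberField M]

/-- the parameter `((1 - x) / (1 + x)) ^ 2` -/
noncomputable def tt {F : Type} [Field F] (x : F) : F := ((1 - x) / (1 + x)) ^ 2

/-- `1 - tt x` -/
noncomputable def yy {F : Type} [Field F] (x : F) : F := 4 * x / (1 + x) ^ 2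

lemma tt_add_yy {F : Type} [Field F] {x : F} (h : 1 + x ≠ 0) : tt x + yy x = 1 := by
  unfold tt yy
  field_simp
  ring

lemma Chain.sq {F : Type} [Field F] {m : ℕ} {W : F} {u : ℕ → F} (h : Chain m W u)
    {j : ℕ} (hj : j < m) (_ : 1 + u j ≠ 0) : u (j + 1) ^ 2 = yy (u j) := h.2 j hj

section fin
variable (v : HeightOneSpectrum (𝓞 M))

lemma na_lt {x y : M} (h : fv v y < fv v x) : fv v (x + y) = fv v x := by
  refine le_antisymm ((fv_na v x y).trans (max_le le_rfl h.le)) ?_
  by_contra hlt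
  push Not at hlt
  have h1 := fv_na v (x + y) (-y)
  rw [add_neg_cancel_right, AbsoluteValue.map_neg] at h1
  exact absurd h1 (not_le.2 (max_lt hlt h))

lemma fv_one_add {x : M} (h : fv v x ≠ 1) : fv v (1 + x) = max 1 (fv v x) := by
  rcases lt_or_gt_of_ne h with h1 | h1
  · rw [na_lt v (by rwa [map_one]), map_one, max_eq_left h1.le]
  · rw [add_comm, na_lt v (by rwa [map_one]), max_eq_right h1.le]

lemma fv_one_sub {x : M} (h : fv v x ≠ 1) : fv v (1 - x) = max 1 (fv v x) := by
  have h1 := fv_one_add v (x := -x) (by rwa [AbsoluteValue.map_neg])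
  rwa [AbsoluteValue.map_neg, ← sub_eq_add_neg] at h1

lemma fv_four_le : fv v (4 : M) ≤ 1 := by
  have := fv_nat v 4
  push_cast at this
  exact this

lemma bad_step {x : M} (h : fv v x ≠ 1) : fv v (tt x) = 1 ∧ fv v (yy x) < 1 := by
  have h0 : (0 : ℝ) < max 1 (fv v x) := lt_max_of_lt_left one_pos
  constructor
  · unfold tt
    rw [map_pow, map_div₀, fv_one_add v h, fv_one_sub v h, div_self h0.ne', one_pow]
  · unfold yy
    rw [map_div₀, map_mul, map_pow, fv_one_add v h, div_lt_one (pow_pos h0 2)]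
    have h4 := fv_four_le v
    have h5 : 0 ≤ fv v x := apply_nonneg _ _
    rcases lt_or_gt_of_ne h with h1 | h1
    · rw [max_eq_left h1.le]
      nlinarith
    · rw [max_eq_right h1.le]
      nlinarith

lemma unit_step {x : M} (h0 : 1 + x ≠ 0) (h2 : fv v 2 = 1) (h : fv v x = 1) :
    (1 < fv v (tt x) ∧ 1 < fv v (yy x)) ∨ (fv v (tt x) ≤ 1 ∧ fv v (yy x) = 1) := by
  have h1 : fv v (1 + x) ≤ 1 := (fv_na v _ _).trans (by rw [map_one, h, max_self])
  have h3 : fv v (1 - x) ≤ 1 := by
    rw [sub_eq_add_neg]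
    exact (fv_na v _ _).trans (by rw [map_one, AbsoluteValue.map_neg, h, max_self])
  have h4 : fv v (4 : M) = 1 := by
    rw [show (4 : M) = 2 ^ 2 by norm_num, map_pow, h2, one_pow]
  have hsum : (1 : ℝ) ≤ max (fv v (1 + x)) (fv v (1 - x)) := by
    rw [← h2, show (2 : M) = (1 + x) + (1 - x) by ring]
    exact fv_na v _ _
  rcases le_or_gt 1 (fv v (1 + x)) with h5 | h5
  · right
    have h6 : fv v (1 + x) = 1 := le_antisymm h1 h5
    constructor
    · unfold tt
      rw [map_pow, map_div₀, h6, div_one]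
      exact pow_le_one₀ (apply_nonneg _ _) h3
    · unfold yy
      rw [map_div₀, map_mul, map_pow, h6, h4, h]
      norm_num
  · have h6 : fv v (1 - x) = 1 := by
      refine le_antisymm h3 ?_
      rcases le_max_iff.1 hsum with h7 | h7
      · exact absurd h7 (not_le.2 h5)
      · exact h7
    left
    have h7 := (fv v).pos h0
    constructor
    · unfold tt
      rw [map_pow, map_div₀, h6]
      refine one_lt_pow₀ ?_ two_ne_zero
      rwa [lt_div_iff₀ h7, one_mul]
    · unfold yy
      rw [map_div₀, map_mul, map_pow, h4, h, one_mul, lt_div_iff₀ (pow_pos h7 2), one_mul]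
      exact pow_lt_one₀ h7.le h5 two_ne_zero

lemma bad_chain {m : ℕ} {W : M} {u : ℕ → M} (hu : Chain m W u) (hne : ∀ j ≤ m, 1 + u j ≠ 0)
    {j : ℕ} (h : fv v (u j) ≠ 1) : ∀ i, j ≤ i → i ≤ m → fv v (u i) ≠ 1 := by
  intro i hi
  induction i, hi using Nat.le_induction with
  | base => exact fun _ => h
  | succ i hi ih =>
    intro him
    have h1 := (bad_step v (ih (by omega))).2
    rw [← hu.sq (by omega) (hne i (by omega)), map_pow] at h1
    intro h2
    rw [h2, one_pow] at h1
    exact lt_irrefl _ h1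

/-- At every prime, at most one of the parameters is not integral. -/
lemma type_chain {m : ℕ} {W : M} {u : ℕ → M} (hu : Chain m W u) (hne : ∀ j ≤ m, 1 + u j ≠ 0)
    (hv : fv v 2 = 1 ∨ fv v (u 0) ≠ 1) {j : ℕ} (hj : j ≤ m) (h : 1 < fv v (tt (u j))) :
    (∀ i < j, fv v (yy (u i)) = 1) ∧ ∀ i ≤ m, i ≠ j → fv v (tt (u i)) ≤ 1 := by
  have h1 : ∀ i ≤ j, fv v (u i) = 1 := by
    intro i hi
    by_contra h2
    have h3 := (bad_step v (bad_chain v hu hne h2 j hi hj)).1
    rw [h3] at h
    exact lt_irrefl _ h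
  have h2 : fv v 2 = 1 := by
    rcases hv with h3 | h3
    · exact h3
    · exact absurd (h1 0 (Nat.zero_le _)) h3
  have h3 : ∀ i < j, fv v (yy (u i)) = 1 := by
    intro i hi
    rw [← hu.sq (by omega) (hne i (by omega)), map_pow, h1 (i + 1) (by omega), one_pow]
  refine ⟨h3, fun i hi hij => ?_⟩
  rcases lt_or_gt_of_ne hij with h4 | h4
  · rcases unit_step v (hne i hi) h2 (h1 i h4.le) with h5 | h5
    · exact absurd (h3 i h4) h5.2.ne'
    · exact h5.1
  · have h5 : 1 < fv v (yy (u j)) := by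
      rcases unit_step v (hne j hj) h2 (h1 j le_rfl) with h5 | h5
      · exact h5.2
      · exact absurd h5.1 (not_le.2 h)
    have h6 : fv v (u (j + 1)) ≠ 1 := by
      rw [← hu.sq (by omega) (hne j hj), map_pow] at h5
      intro h6
      rw [h6, one_pow] at h5
      exact lt_irrefl _ h5
    exact (bad_step v (bad_chain v hu hne h6 i (by omega) hi)).1.le

/-- At a good prime, everything is a unit. -/
lemma good_chain {m : ℕ} {W : M} {u : ℕ → M} (hu : Chain m W u) (hne : ∀ j ≤ m, 1 + u j ≠ 0)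
    (h2 : fv v 2 = 1) (hW : fv v W = 1) (hW1 : fv v (1 - W) = 1) : ∀ j ≤ m,
    fv v (u j) = 1 ∧ fv v (tt (u j)) = 1 ∧ fv v (yy (u j)) = 1 := by
  have key : ∀ x : M, fv v x = 1 → fv v (1 - x ^ 2) = 1 →
      fv v (tt x) = 1 ∧ fv v (yy x) = 1 := by
    intro x hx hx2
    have h1 : fv v (1 + x) ≤ 1 := (fv_na v _ _).trans (by rw [map_one, hx, max_self])
    have h3 : fv v (1 - x) ≤ 1 := by
      rw [sub_eq_add_neg]
      exact (fv_na v _ _).trans (by rw [map_one, AbsoluteValue.map_neg, hx, max_self])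
    have h4 : fv v (4 : M) = 1 := by
      rw [show (4 : M) = 2 ^ 2 by norm_num, map_pow, h2, one_pow]
    have h5 : fv v (1 + x) * fv v (1 - x) = 1 := by
      rw [← map_mul, show (1 + x) * (1 - x) = 1 - x ^ 2 by ring, hx2]
    have h7 : 0 ≤ fv v (1 - x) := apply_nonneg _ _
    have h6 : fv v (1 + x) = 1 := by
      refine le_antisymm h1 ?_
      have := mul_le_mul_of_nonneg_left h3 (apply_nonneg (fv v) (1 + x))
      linarith
    have h8 : fv v (1 - x) = 1 := by rwa [h6, one_mul] at h5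
    unfold tt yy
    rw [map_pow, map_div₀, map_div₀, map_mul, map_pow, h6, h8, h4, hx]
    norm_num
  intro j
  induction j with
  | zero =>
    intro hj
    have h0 : fv v (u 0) = 1 := by
      have h3 : fv v (u 0) ^ 2 = 1 := by rw [← map_pow, hu.1, hW]
      exact (pow_eq_one_iff_of_nonneg (apply_nonneg _ _) two_ne_zero).1 h3
    exact ⟨h0, key _ h0 (by rw [hu.1, hW1])⟩
  | succ j ih =>
    intro hj
    obtain ⟨h3, h4, h5⟩ := ih (by omega)
    have hsq := hu.sq (by omega) (hne j (by omega))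
    have h0 : fv v (u (j + 1)) = 1 := by
      have h6 : fv v (u (j + 1)) ^ 2 = 1 := by rw [← map_pow, hsq, h5]
      exact (pow_eq_one_iff_of_nonneg (apply_nonneg _ _) two_ne_zero).1 h6
    refine ⟨h0, key _ h0 ?_⟩
    rw [hsq, ← tt_add_yy (hne j (by omega)), add_sub_cancel_right, h4]

end fin

/-- the archimedean places -/
lemma arch_chain (m : ℕ) : ∀ ε : ℝ, 0 < ε → ∃ δ : ℝ, 0 < δ ∧
    ∀ (M : Type) [Field M] (W : M) (u : ℕ → M) (w : AbsoluteValue M ℝ), Chain m W u →
      w W ≤ δ → ∀ j ≤ m, w (u j) ≤ ε := by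
  induction m with
  | zero =>
    intro ε hε
    refine ⟨ε ^ 2, by positivity, fun M _ W u w hu hW j hj => ?_⟩
    obtain rfl : j = 0 := by omega
    rw [← hu.1, map_pow] at hW
    exact (pow_le_pow_iff_left₀ (apply_nonneg _ _) hε.le two_ne_zero).1 hW
  | succ m ih =>
    intro ε hε
    obtain ⟨δ, hδ, h⟩ := ih (min (min ε (1 / 2)) (ε ^ 2 / 16)) (by positivity)
    refine ⟨δ, hδ, fun M _ W u w hu hW j hj => ?_⟩
    have hu' : Chain m W u := ⟨hu.1, fun i hi => hu.2 i (by omega)⟩
    have h1 := h M W u w hu' hW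
    rcases Nat.lt_or_ge j (m + 1) with h2 | h2
    · exact (h1 j (by omega)).trans ((min_le_left _ _).trans (min_le_left _ _))
    · obtain rfl : j = m + 1 := by omega
      have h3 := h1 m le_rfl
      have h4 : w (u m) ≤ 1 / 2 := h3.trans ((min_le_left _ _).trans (min_le_right _ _))
      have h5 : w (u m) ≤ ε ^ 2 / 16 := h3.trans (min_le_right _ _)
      have h7 : (1 : ℝ) / 2 ≤ w (1 + u m) := by
        have h8 : w 1 ≤ w (1 + u m) + w (-(u m)) := by
          have := w.add_le (1 + u m) (-(u m))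
          rwa [add_neg_cancel_right] at this
        rw [map_one, AbsoluteValue.map_neg] at h8
        linarith
      have h6 := congrArg w (hu.2 m (by omega))
      rw [map_div₀, map_mul, map_pow, map_pow, eq_div_iff (by positivity)] at h6
      have h8 : w 4 ≤ 4 := by
        have : (4 : M) = 1 + 1 + 1 + 1 := by norm_num
        rw [this]
        have e1 := w.add_le (1 + 1 + 1) 1
        have e2 := w.add_le (1 + 1) 1
        have e3 := w.add_le 1 1
        rw [map_one] at e1 e2 e3
        linarith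
      have h9 : w (u (m + 1)) ^ 2 ≤ ε ^ 2 := by
        have e1 : w (u (m + 1)) ^ 2 * (1 / 4) ≤ w (u (m + 1)) ^ 2 * w (1 + u m) ^ 2 := by
          refine mul_le_mul_of_nonneg_left ?_ (by positivity)
          nlinarith
        have e2 : w 4 * w (u m) ≤ 4 * (ε ^ 2 / 16) :=
          mul_le_mul h8 h5 (apply_nonneg _ _) (by norm_num)
        linarith
      exact (pow_le_pow_iff_left₀ (apply_nonneg _ _) hε.le two_ne_zero).1 h9

lemma arch_tt {F : Type} [Field F] (w : AbsoluteValue F ℝ) {x : F} (h : w x ≤ 1 / 32) :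
    w (tt x) ≤ 2 := by
  have h0 : 0 ≤ w x := apply_nonneg _ _
  have h1 : (31 : ℝ) / 32 ≤ w (1 + x) := by
    have h8 : w 1 ≤ w (1 + x) + w (-x) := by
      have := w.add_le (1 + x) (-x)
      rwa [add_neg_cancel_right] at this
    rw [map_one, AbsoluteValue.map_neg] at h8
    linarith
  have h2 : w (1 - x) ≤ 33 / 32 := by
    have := w.add_le 1 (-x)
    rw [map_one, AbsoluteValue.map_neg, ← sub_eq_add_neg] at this
    linarith
  unfold tt
  rw [map_pow, map_div₀]
  have h3 : w (1 - x) / w (1 + x) ≤ 33 / 31 := by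
    rw [div_le_iff₀ (by linarith)]
    linarith
  have h4 : 0 ≤ w (1 - x) / w (1 + x) := div_nonneg (apply_nonneg _ _) (apply_nonneg _ _)
  nlinarith

end Pool.Agent.H10UD
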