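import Mathlib
import Pool.Agent.H10UD.Loc

set_option autoImplicit false

/-!
Linear independence of numbers with different valuations.
-/

namespace Pool.Agent.H10UD

open NumberField IsDedekindDomain Module Height Pool.Agent.W231.V Pool.Agent.Y733.VR
  IntermediateField

variable {K M : Type} [Field K] [NumberField K] [Field M] [NumberField M] [Algebra K M]

/-- the values of the elements of `K` -/
def KVal (K : Type) {M : Type} [Field K] [Field M] [NumberField M] [Algebra K M]
    (w : HeightOneSpectrum (𝓞 M)) (τ : ℝ) (R : ℕ) : Prop :=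
  ∀ c : K, c ≠ 0 → ∃ a : ℤ, fv w (algebraMap K M c) = τ ^ ((R : ℤ) * a)

theorem indep (w : HeightOneSpectrum (𝓞 M)) {τ : ℝ} (hτ0 : 0 < τ) (hτ1 : τ < 1) {R : ℕ}
    (hK : KVal K w τ R) {ι : Type*} (s : Finset ι) (c : ι → K) (z : ι → M) (n : ι → ℕ)
    (hz : ∀ i ∈ s, fv w (z i) = τ ^ n i) (hn : ∀ i ∈ s, n i < R) (hinj : Set.InjOn n s)
    (hsum : ∑ i ∈ s, algebraMap K M (c i) * z i = 0) : ∀ i ∈ s, c i = 0 := by
  classical
  by_contra hcon
  push Not at hcon
  obtain ⟨i0, hi0, hci0⟩ := hcon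
  set s' := s.filter fun i => c i ≠ 0 with hs'
  have hne : s'.Nonempty := ⟨i0, Finset.mem_filter.2 ⟨hi0, hci0⟩⟩
  set f : ι → ℝ := fun i => fv w (algebraMap K M (c i) * z i) with hf
  obtain ⟨k, hk, hkmax⟩ := Finset.exists_max_image s' f hne
  have hval : ∀ i ∈ s', ∃ a : ℤ, f i = τ ^ ((R : ℤ) * a + n i) := by
    intro i hi
    obtain ⟨his, hci⟩ := Finset.mem_filter.1 hi
    obtain ⟨a, ha⟩ := hK (c i) hci
    refine ⟨a, ?_⟩
    simp only [hf]
    rw [map_mul, ha, hz i his, zpow_add₀ hτ0.ne', zpow_natCast]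
  have hlt : ∀ j ∈ s', j ≠ k → f j < f k := by
    intro j hj hjk
    refine lt_of_le_of_ne (hkmax j hj) ?_
    intro heq
    obtain ⟨a, ha⟩ := hval j hj
    obtain ⟨b, hb⟩ := hval k hk
    rw [ha, hb] at heq
    have h1 := zpow_right_injective₀ hτ0 hτ1.ne heq
    have hjs := (Finset.mem_filter.1 hj).1
    have hks := (Finset.mem_filter.1 hk).1
    have h2 : n j = n k := by
      have h3 := hn j hjs
      have h4 := hn k hks
      have h5 : ((n j : ℤ) - n k) = R * (b - a) := by
        linarith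
      have h6 : b - a = 0 := by
        by_contra h7
        have h8 : (R : ℤ) ≤ |(R : ℤ) * (b - a)| := by
          rw [abs_mul, Nat.abs_cast]
          have : 1 ≤ |b - a| := Int.one_le_abs h7
          nlinarith [Int.natCast_nonneg R]
        rw [← h5] at h8
        have h9 : |(n j : ℤ) - n k| < R := by
          rw [abs_lt]
          constructor <;> omega
        omega
      rw [h6, mul_zero] at h5
      omega
    exact hjk (hinj hjs hks h2)
  have hna : IsNonarchimedean (fv w : M → ℝ) := fun a b => fv_na w a b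
  have h1 := IsNonarchimedean.apply_sum_eq_of_lt hna
    (fun a => (AbsoluteValue.map_neg (fv w) a).symm) (s := s')
    (l := fun i => algebraMap K M (c i) * z i) hk hlt
  have h2 : ∑ i ∈ s', algebraMap K M (c i) * z i = 0 := by
    rw [← hsum, hs', Finset.sum_filter]
    refine Finset.sum_congr rfl fun i _ => ?_
    split_ifs with h3
    · rfl
    · push Not at h3
      rw [h3, map_zero, zero_mul]
  rw [h2, map_zero] at h1
  obtain ⟨a, ha⟩ := hval k hk
  have h3 : 0 < f k := by rw [ha]; exact zpow_pos hτ0 _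
  exact h3.ne h1

/-- generation and degree -/
theorem gen_top (w : HeightOneSpectrum (𝓞 M)) {τ : ℝ} (hτ0 : 0 < τ) (hτ1 : τ < 1) {R : ℕ}
    (hK : KVal K w τ R) {y : M} (hy : fv w y = τ) (hR : finrank K M ≤ R) :
    K⟮y⟯ = ⊤ ∧ finrank K M = R := by
  have hint : IsIntegral K y := Algebra.IsIntegral.isIntegral y
  have h1 : R ≤ (minpoly K y).natDegree := by
    by_contra hlt
    push Not at hlt
    have h2 := minpoly.aeval K y
    rw [Polynomial.aeval_eq_sum_range] at h2
    have h3 := indep (K := K) w hτ0 hτ1 hK (Finset.range ((minpoly K y).natDegree + 1))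
      (fun i => (minpoly K y).coeff i) (fun i => y ^ i) (fun i => i)
      (fun i _ => by rw [map_pow, hy]) (fun i hi => by
        have := Finset.mem_range.1 hi
        omega) (fun i _ j _ h => h) (by
        rw [← h2]
        refine Finset.sum_congr rfl fun i _ => ?_
        rw [Algebra.smul_def])
    have h4 := h3 (minpoly K y).natDegree (Finset.mem_range.2 (Nat.lt_succ_self _))
    have h5 : (minpoly K y).coeff (minpoly K y).natDegree = 1 := (minpoly.monic hint).leadingCoeff
    rw [h5] at h4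
    exact one_ne_zero h4
  rw [← IntermediateField.adjoin.finrank hint] at h1
  have h6 : finrank K K⟮y⟯ ≤ finrank K M := by
    exact Submodule.finrank_le (K⟮y⟯.toSubmodule)
  refine ⟨?_, by omega⟩
  apply IntermediateField.eq_of_le_of_finrank_le le_top
  rw [IntermediateField.finrank_top']
  omega

/-- values along the chain -/
lemma chain_val (w : HeightOneSpectrum (𝓞 M)) {m : ℕ} {W : M} {u : ℕ → M} (hu : Chain m W u)
    {ρ : ℝ} (hρ0 : 0 < ρ) (hρ1 : ρ < 1) (h2 : fv w 2 = 1) (hW : fv w W = ρ⁻¹) : ∀ j ≤ m,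
    (fv w (u j) ≠ 1 ∧ u j ≠ 0) ∧ fv w (yy (u j)) ^ 2 ^ (j + 1) = ρ := by
  have h4 : fv w (4 : M) = 1 := by
    rw [show (4 : M) = 2 ^ 2 by norm_num, map_pow, h2, one_pow]
  intro j
  induction j with
  | zero =>
    intro _
    have h0 : fv w (u 0) ^ 2 = ρ⁻¹ := by rw [← map_pow, hu.1, hW]
    have h1 : 1 < ρ⁻¹ := (one_lt_inv₀ hρ0).2 hρ1
    have h3 : 1 < fv w (u 0) := by
      by_contra h
      push Not at h
      have := pow_le_one₀ (n := 2) (apply_nonneg (fv w) (u 0)) h
      linarith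
    refine ⟨⟨h3.ne', fun h => ?_⟩, ?_⟩
    · rw [h, map_zero] at h3
      linarith
    · unfold yy
      rw [map_div₀, map_mul, map_pow, h4, fv_one_add w h3.ne', max_eq_right h3.le, one_mul]
      have h5 : fv w (u 0) / fv w (u 0) ^ 2 = (fv w (u 0))⁻¹ := by
        field_simp
      rw [h5, zero_add, pow_one, inv_pow, h0, inv_inv]
  | succ j ih =>
    intro hj
    obtain ⟨⟨h3, h30⟩, h5⟩ := ih (by omega)
    have hne : 1 + u j ≠ 0 := by
      intro h
      have := fv_one_add w h3
      rw [h, map_zero] at this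
      have : (0 : ℝ) < max 1 (fv w (u j)) := lt_max_of_lt_left one_pos
      linarith
    have hsq : fv w (u (j + 1)) ^ 2 = fv w (yy (u j)) := by
      rw [← map_pow, hu.sq (by omega) hne]
    have hy1 := (bad_step w h3).2
    have hu1 : fv w (u (j + 1)) < 1 := by
      by_contra h
      push Not at h
      have := one_le_pow₀ h (n := 2)
      linarith
    refine ⟨⟨hu1.ne, fun h => ?_⟩, ?_⟩
    · rw [← hsq, h, map_zero] at h5
      rw [zero_pow two_ne_zero, zero_pow (pow_ne_zero _ two_ne_zero)] at h5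
      linarith
    · have h6 : fv w (yy (u (j + 1))) = fv w (u (j + 1)) := by
        unfold yy
        rw [map_div₀, map_mul, map_pow, h4, fv_one_add w hu1.ne, max_eq_left hu1.le, one_mul,
          one_pow, div_one]
      rw [h6, pow_succ 2 (j + 1), mul_comm, pow_mul, hsq, h5]

/-- partial sums of the exponents -/
def ext {n : ℕ} (a : Fin (n + 1) →₀ ℕ) (k : ℕ) : ℕ := if h : k < n + 1 then a ⟨k, h⟩ else 0

lemma sum_ext {n : ℕ} (a : Fin (n + 1) →₀ ℕ) : ∑ k ∈ Finset.range (n + 1), ext a k = a.degree := by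
  rw [Finset.sum_range, Finsupp.degree_eq_sum]
  refine Finset.sum_congr rfl fun i _ => ?_
  unfold ext
  rw [dif_pos i.2]

/-- forms of small degree do not vanish -/
theorem eval_ne (w : HeightOneSpectrum (𝓞 M)) {τ : ℝ} (hτ0 : 0 < τ) (hτ1 : τ < 1) {B n : ℕ}
    (hK : KVal K w τ (B ^ n)) (y : ℕ → M) (hy : ∀ i < n, fv w (y i) = τ ^ B ^ i)
    {G : MvPolynomial (Fin (n + 1)) K} {d : ℕ} (hG : G.IsHomogeneous d) (hG0 : G ≠ 0)
    (hd : d < B) :
    MvPolynomial.aeval (fun i : Fin (n + 1) => ∏ j ∈ Finset.Ico (i : ℕ) n, y j) G ≠ 0 := by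
  classical
  intro h0
  rw [MvPolynomial.aeval_def, MvPolynomial.eval₂_eq'] at h0
  -- the exponents
  set N : (Fin (n + 1) →₀ ℕ) → ℕ := fun a =>
    ∑ j ∈ Finset.range n, (∑ i ∈ Finset.range (j + 1), ext a i) * B ^ j with hN
  have hdeg : ∀ a ∈ G.support, a.degree = d := fun a ha => by
    rw [Finsupp.degree_eq_weight_one]
    exact hG (MvPolynomial.mem_support_iff.1 ha)
  have hpart : ∀ a ∈ G.support, ∀ j < n, ∑ i ∈ Finset.range (j + 1), ext a i < B := by
    intro a ha j hj
    refine lt_of_le_of_lt ?_ hd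
    rw [← hdeg a ha, ← sum_ext]
    exact Finset.sum_le_sum_of_subset (Finset.range_subset_range.2 (by omega))
  have hval : ∀ a ∈ G.support, fv w (∏ i : Fin (n + 1), (∏ j ∈ Finset.Ico (i : ℕ) n, y j) ^ a i) =
      τ ^ N a := by
    intro a _
    rw [map_prod]
    have h1 : ∀ i : Fin (n + 1), fv w ((∏ j ∈ Finset.Ico (i : ℕ) n, y j) ^ a i) =
        τ ^ (a i * ∑ j ∈ Finset.Ico (i : ℕ) n, B ^ j) := by
      intro i
      rw [map_pow, map_prod, Finset.prod_congr rfl fun j hj => hy j (Finset.mem_Ico.1 hj).2,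
        Finset.prod_pow_eq_pow_sum, ← pow_mul, mul_comm]
    rw [Finset.prod_congr rfl fun i _ => h1 i, Finset.prod_pow_eq_pow_sum]
    congr 1
    rw [hN]
    have h2 : ∑ i : Fin (n + 1), a i * ∑ j ∈ Finset.Ico (i : ℕ) n, B ^ j =
        ∑ i ∈ Finset.range (n + 1), ext a i * ∑ j ∈ Finset.Ico i n, B ^ j := by
      rw [Finset.sum_range]
      refine Finset.sum_congr rfl fun i _ => ?_
      unfold ext
      rw [dif_pos i.2]
    rw [h2, Finset.sum_range_succ, Finset.Ico_self, Finset.sum_empty, mul_zero, add_zero]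
    simp only [Finset.mul_sum, Finset.sum_mul]
    rw [Finset.range_eq_Ico, Finset.sum_Ico_Ico_comm]
    simp only [Finset.range_eq_Ico]
  -- the exponents are different
  have hdig : ∀ a (ha : a ∈ G.support), N a =
      (finFunctionFinEquiv (fun j : Fin n => (⟨_, hpart a ha j j.2⟩ : Fin B)) : ℕ) := by
    intro a ha
    rw [finFunctionFinEquiv_apply, hN]
    simp only
    rw [Finset.sum_range]
  have hlt : ∀ a ∈ G.support, N a < B ^ n := by
    intro a ha
    rw [hdig a ha]
    exact (finFunctionFinEquiv _).2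
  have hinj : Set.InjOn N G.support := by
    intro a ha b hb hab
    rw [hdig a ha, hdig b hb] at hab
    have h1 := finFunctionFinEquiv.injective (Fin.ext hab)
    have h2 : ∀ j < n, ∑ i ∈ Finset.range (j + 1), ext a i = ∑ i ∈ Finset.range (j + 1), ext b i := by
      intro j hj
      exact congrArg Fin.val (congrFun h1 ⟨j, hj⟩)
    have h3 : ∀ j ≤ n, ∑ i ∈ Finset.range (j + 1), ext a i = ∑ i ∈ Finset.range (j + 1), ext b i := by
      intro j hj
      rcases hj.lt_or_eq with h4 | rfl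
      · exact h2 j h4
      · rw [sum_ext, sum_ext, hdeg a ha, hdeg b hb]
    have h4 : ∀ j ≤ n, ext a j = ext b j := by
      intro j hj
      rcases j with _ | j
      · simpa using h3 0 hj
      · have e1 := h3 (j + 1) hj
        have e2 := h3 j (by omega)
        rw [Finset.sum_range_succ, Finset.sum_range_succ (fun i => ext b i), e2] at e1
        omega
    ext i
    have h5 := h4 i (Nat.lt_succ_iff.1 i.2)
    unfold ext at h5
    rwa [dif_pos i.2, dif_pos i.2] at h5
  have h1 := indep (K := K) w hτ0 hτ1 hK G.support (fun a => G.coeff a)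
    (fun a => ∏ i : Fin (n + 1), (∏ j ∈ Finset.Ico (i : ℕ) n, y j) ^ a i) N hval hlt hinj h0
  apply hG0
  ext a
  rw [MvPolynomial.coeff_zero]
  by_cases ha : a ∈ G.support
  · exact h1 a ha
  · exact MvPolynomial.notMem_support_iff.1 ha

lemma fv_eq_one_iff (v : HeightOneSpectrum (𝓞 M)) (x : M) : fv v x = 1 ↔ v.valuation M x = 1 := by
  rcases eq_or_ne x 0 with rfl | hx
  · simp
  have h1 := Pool.Agent.H10VJ.fv_le_one_iff v x
  have h2 := Pool.Agent.H10VJ.fv_le_one_iff v x⁻¹
  rw [map_inv₀, map_inv₀, inv_le_one₀ ((fv v).pos hx),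
    inv_le_one₀ (zero_lt_iff.2 ((Valuation.ne_zero_iff _).2 hx))] at h2
  rw [le_antisymm_iff, le_antisymm_iff, h1, h2]

theorem kval (w : HeightOneSpectrum (𝓞 M)) {π : K} (hπ0 : π ≠ 0)
    (hπ : (w.under (𝓞 K)).valuation K π = WithZero.exp (-1 : ℤ)) (c : K) (hc : c ≠ 0) :
    ∃ a : ℤ, fv w (algebraMap K M c) = fv w (algebraMap K M π) ^ a := by
  obtain ⟨e, he, hv⟩ := val_under (K := K) w
  have hc' : (w.under (𝓞 K)).valuation K c ≠ 0 := (Valuation.ne_zero_iff _).2 hc
  obtain ⟨n, hn⟩ : ∃ n : ℤ, (w.under (𝓞 K)).valuation K c = WithZero.exp n :=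
    ⟨_, (WithZero.exp_log hc').symm⟩
  have h1 : (w.under (𝓞 K)).valuation K (c * π ^ n) = 1 := by
    rw [map_mul, map_zpow₀, hn, hπ, ← WithZero.exp_zsmul, ← WithZero.exp_add]
    simp
  have h2 : fv w (algebraMap K M (c * π ^ n)) = 1 := by
    rw [fv_eq_one_iff, ← hv, h1, one_pow]
  rw [map_mul, map_mul, map_zpow₀, map_zpow₀] at h2
  refine ⟨-n, ?_⟩
  rw [zpow_neg]
  exact eq_inv_of_mul_eq_one_left h2

end Pool.Agent.H10UD
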