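import Mathlib
import Pool.Agent.H10UD.Val
import Pool.Agent.H10UD.Lin

set_option autoImplicit false

/-!
The points: heights.
-/

namespace Pool.Agent.H10UD

open NumberField IsDedekindDomain Module Height Pool.Agent.W231.V Pool.Agent.Y733.VR

section alg
variable {F : Type} [Field F]

/-- the products of the `y j` -/
noncomputable def YY (y : ℕ → F) (n i : ℕ) : F := ∏ j ∈ Finset.Ico i n, y j

/-- the coordinates -/
noncomputable def ZZ (y t : ℕ → F) (n : ℕ) : Fin (n + 1) → F :=
  fun i => if (i : ℕ) = 0 then YY y n 0 else YY y n i * t (i - 1)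

lemma YY_self (y : ℕ → F) (n : ℕ) : YY y n n = 1 := by simp [YY]

lemma YY_succ {y : ℕ → F} {n i : ℕ} (h : i < n) : YY y n i = y i * YY y n (i + 1) := by
  unfold YY
  exact Finset.prod_eq_prod_Ico_succ_bot h _

lemma ZZ_zero (y t : ℕ → F) (n : ℕ) : ZZ y t n 0 = YY y n 0 := by simp [ZZ]

lemma ZZ_succ (y t : ℕ → F) {n : ℕ} (i : Fin n) : ZZ y t n i.succ = YY y n (i + 1) * t i := by
  simp [ZZ]

lemma ZZ_succ' {y t : ℕ → F} {n : ℕ} (h : ∀ i < n, t i + y i = 1) (i : Fin n) :
    ZZ y t n i.succ = YY y n (i + 1) - YY y n i := by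
  rw [ZZ_succ, YY_succ i.2]
  have := h i i.2
  linear_combination (YY y n (↑i + 1)) * this

lemma ZZ_sum {y t : ℕ → F} {n : ℕ} (h : ∀ i < n, t i + y i = 1) : ∑ i, ZZ y t n i = 1 := by
  rw [Fin.sum_univ_succ, ZZ_zero, Finset.sum_congr rfl fun i _ => ZZ_succ' h i,
    ← Finset.sum_range (fun i => YY y n (i + 1) - YY y n i), Finset.sum_range_sub, YY_self]
  ring

/-- the matrix of the differences -/
def dif (K : Type) [Field K] (n : ℕ) : Matrix (Fin (n + 1)) (Fin (n + 1)) K :=
  Fin.cases (Pi.single 0 1) fun i => Pi.single i.succ 1 - Pi.single i.castSucc 1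

/-- its inverse -/
def part (K : Type) [Field K] (n : ℕ) : Matrix (Fin (n + 1)) (Fin (n + 1)) K :=
  fun i j => if j ≤ i then 1 else 0

lemma dif_mul (K : Type) [Field K] (n : ℕ) : dif K n * part K n = 1 := by
  ext i k
  rw [Matrix.mul_apply]
  refine Fin.cases ?_ (fun i => ?_) i
  · have : ∀ j, dif K n 0 j * part K n j k = if j = 0 then part K n 0 k else 0 := by
      intro j
      change (Pi.single 0 1 : Fin (n + 1) → K) j * _ = _
      rw [Pi.single_apply]
      split_ifs with h
      · rw [h, one_mul]
      · rw [zero_mul]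
    rw [Finset.sum_congr rfl fun j _ => this j, Finset.sum_ite_eq' Finset.univ 0]
    simp [part, Matrix.one_apply, eq_comm]
  · have : ∀ j, dif K n i.succ j * part K n j k = (if j = i.succ then part K n i.succ k else 0) -
        (if j = i.castSucc then part K n i.castSucc k else 0) := by
      intro j
      change ((Pi.single i.succ 1 : Fin (n + 1) → K) j - (Pi.single i.castSucc 1 :
        Fin (n + 1) → K) j) * _ = _
      rw [Pi.single_apply, Pi.single_apply, sub_mul]
      split_ifs with h1 h2 h2
      · exfalso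
        have := congrArg Fin.val (h1.symm.trans h2)
        simp at this
      · rw [h1, one_mul, zero_mul]
      · rw [h2, one_mul, zero_mul]
      · rw [zero_mul]
    rw [Finset.sum_congr rfl fun j _ => this j, Finset.sum_sub_distrib,
      Finset.sum_ite_eq' Finset.univ i.succ, Finset.sum_ite_eq' Finset.univ i.castSucc]
    simp only [Finset.mem_univ, if_true, part, Matrix.one_apply]
    have h1 : (k ≤ i.succ) ↔ (i.succ = k ∨ k ≤ i.castSucc) := by
      rw [Fin.le_def, Fin.le_def, Fin.ext_iff]
      simp
      omega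
    have h2 : i.succ = k → ¬ k ≤ i.castSucc := by
      rintro rfl
      rw [Fin.le_def]
      simp
    by_cases h3 : i.succ = k
    · simp [h2 h3, h3]
    · by_cases h4 : k ≤ i.castSucc
      · simp [h1, h3, h4]
      · simp [h1, h3, h4]

lemma dif_mulVec {K : Type} [Field K] [Algebra K F] {y t : ℕ → F} {n : ℕ}
    (h : ∀ i < n, t i + y i = 1) :
    ((dif K n).map (algebraMap K F)).mulVec (fun i : Fin (n + 1) => YY y n i) = ZZ y t n := by
  funext i
  rw [Matrix.mulVec, dotProduct]
  refine Fin.cases ?_ (fun i => ?_) i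
  · have : ∀ j : Fin (n + 1), (dif K n).map (algebraMap K F) 0 j * YY y n j =
        if j = 0 then YY y n 0 else 0 := by
      intro j
      change algebraMap K F ((Pi.single 0 1 : Fin (n + 1) → K) j) * _ = _
      rw [Pi.single_apply]
      split_ifs with h
      · rw [h, map_one, one_mul]; rfl
      · rw [map_zero, zero_mul]
    rw [Finset.sum_congr rfl fun j _ => this j, Finset.sum_ite_eq' Finset.univ 0, ZZ_zero]
    simp
  · have : ∀ j : Fin (n + 1), (dif K n).map (algebraMap K F) i.succ j * YY y n j =
        (if j = i.succ then YY y n (i + 1) else 0) - (if j = i.castSucc then YY y n i else 0) := by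
      intro j
      change algebraMap K F ((Pi.single i.succ 1 : Fin (n + 1) → K) j -
        (Pi.single i.castSucc 1 : Fin (n + 1) → K) j) * _ = _
      rw [Pi.single_apply, Pi.single_apply, map_sub, sub_mul]
      split_ifs with h1 h2 h2
      · exfalso
        have := congrArg Fin.val (h1.symm.trans h2)
        simp at this
      · rw [h1, map_one, one_mul, map_zero, zero_mul]; rfl
      · rw [h2, map_one, one_mul, map_zero, zero_mul]; rfl
      · rw [map_zero, zero_mul]
    rw [Finset.sum_congr rfl fun j _ => this j, Finset.sum_sub_distrib,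
      Finset.sum_ite_eq' Finset.univ i.succ, Finset.sum_ite_eq' Finset.univ i.castSucc,
      ZZ_succ' h]
    simp

end alg

section ht
variable {M : Type} [Field M] [NumberField M]

lemma iSup_ge_one {n : ℕ} {z : Fin (n + 1) → M} (hz : ∑ i, z i = 1)
    (v : HeightOneSpectrum (𝓞 M)) : 1 ≤ ⨆ i, fv v (z i) := by
  have hna : IsNonarchimedean (fv v : M → ℝ) := fun a b => fv_na v a b
  obtain ⟨i, -, hi⟩ := hna.finset_image_add_of_nonempty z Finset.univ_nonempty
  rw [hz, map_one] at hi
  exact hi.trans (le_ciSup (f := fun i => fv v (z i)) (Set.finite_range _).bddAbove i)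

lemma iSup_ge_arch {n : ℕ} {z : Fin (n + 1) → M} (hz : ∑ i, z i = 1)
    (w : InfinitePlace M) : 1 ≤ (n + 1) * ⨆ i, w (z i) := by
  have h1 : (1 : ℝ) = w (∑ i, z i) := by rw [hz, map_one]
  have h2 : w (∑ i, z i) ≤ ∑ i, w (z i) := by
    have := w.1.sum_le Finset.univ z
    exact this
  have h3 : ∑ i, w (z i) ≤ ∑ _i : Fin (n + 1), ⨆ i, w (z i) :=
    Finset.sum_le_sum fun i _ => le_ciSup (f := fun i => w (z i)) (Set.finite_range _).bddAbove i
  rw [Finset.sum_const, Finset.card_univ, Fintype.card_fin, nsmul_eq_mul] at h3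
  push_cast at h3
  linarith

/-- the height of the point is at least the sum of the heights of the parameters -/
theorem seg_le {n : ℕ} (y t : ℕ → M) (hty : ∀ i < n, t i + y i = 1)
    (H : ∀ v : HeightOneSpectrum (𝓞 M), ∀ a < n, 1 < fv v (t a) →
      (∀ j, a < j → j < n → fv v (y j) = 1) ∧ ∀ b < n, b ≠ a → fv v (t b) ≤ 1)
    (harch : ∀ w : InfinitePlace M, ∀ i < n, w (t i) ≤ 2) :
    ∑ i : Fin n, logHeight₁ (t i) ≤
      logHeight (ZZ y t n) + finrank ℚ M * Real.log (2 ^ n * (n + 1)) := by
  have hz := ZZ_sum hty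
  have hz0 : ZZ y t n ≠ 0 := by
    intro h
    rw [h] at hz
    simp at hz
  have hseg : logHeight (fun I : Fin n → Fin 2 => ∏ a : Fin n, (![t a, 1] : Fin 2 → M) (I a)) =
      ∑ a : Fin n, logHeight₁ (t a) := by
    have h1 := logHeight_fun_prod_eq (K := M) (α := Fin n) (ι := fun _ => Fin 2)
      (x := fun a => ![t a, 1]) (fun a h => by
        have := congrFun h 1
        simp at this)
    rw [h1]
    refine Finset.sum_congr rfl fun a _ => ?_
    rw [logHeight₁_eq_logHeight]
  rw [← hseg]
  refine height_cmp ?_ hz0 (by positivity) ?_ ?_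
  · intro h
    have := congrFun h (fun _ => 1)
    simp at this
  · intro w I
    have h1 : w (∏ a : Fin n, (![t a, 1] : Fin 2 → M) (I a)) ≤ 2 ^ n := by
      rw [map_prod]
      calc ∏ a : Fin n, w ((![t a, 1] : Fin 2 → M) (I a)) ≤ ∏ _a : Fin n, (2 : ℝ) := by
            refine Finset.prod_le_prod (fun a _ => apply_nonneg _ _) fun a _ => ?_
            have h3 := harch w a a.2
            generalize I a = b
            fin_cases b
            · simpa using h3
            · simp
        _ = 2 ^ n := by simp
    have h2 := iSup_ge_arch hz w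
    have h4 : (0 : ℝ) < 2 ^ n := by positivity
    calc w (∏ a : Fin n, (![t a, 1] : Fin 2 → M) (I a)) ≤ 2 ^ n * 1 := by rw [mul_one]; exact h1
      _ ≤ 2 ^ n * ((n + 1) * ⨆ i, w (ZZ y t n i)) := by gcongr
      _ = _ := by ring
  · intro v I
    have h1 : ∀ a : Fin n, fv v ((![t a, 1] : Fin 2 → M) (I a)) ≤ max (fv v (t a)) 1 := by
      intro a
      generalize I a = b
      fin_cases b
      · exact le_max_left _ _
      · simp
    rw [map_prod]
    by_cases hall : ∀ a < n, fv v (t a) ≤ 1
    · refine le_trans ?_ (iSup_ge_one hz v)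
      refine Finset.prod_le_one (fun a _ => apply_nonneg _ _) fun a _ => ?_
      exact (h1 a).trans (max_le (hall a a.2) le_rfl)
    · push Not at hall
      obtain ⟨a, ha, hta⟩ := hall
      obtain ⟨h2, h3⟩ := H v a ha hta
      have h4 : fv v (ZZ y t n (⟨a, ha⟩ : Fin n).succ) = fv v (t a) := by
        rw [ZZ_succ, map_mul]
        have h5 : fv v (YY y n (a + 1)) = 1 := by
          unfold YY
          rw [map_prod]
          refine Finset.prod_eq_one fun j hj => ?_
          have := Finset.mem_Ico.1 hj
          exact h2 j (by omega) (by omega)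
        simp only
        rw [h5, one_mul]
      have h6 : ∏ b : Fin n, fv v ((![t b, 1] : Fin 2 → M) (I b)) ≤ fv v (t a) := by
        rw [← Finset.mul_prod_erase _ _ (Finset.mem_univ (⟨a, ha⟩ : Fin n))]
        have h7 : fv v ((![t a, 1] : Fin 2 → M) (I ⟨a, ha⟩)) ≤ fv v (t a) := by
          have := h1 (⟨a, ha⟩ : Fin n)
          rwa [max_eq_left hta.le] at this
        have h8 : ∏ b ∈ Finset.univ.erase (⟨a, ha⟩ : Fin n),
            fv v ((![t b, 1] : Fin 2 → M) (I b)) ≤ 1 := by
          refine Finset.prod_le_one (fun b _ => apply_nonneg _ _) fun b hb => ?_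
          have hne : (b : ℕ) ≠ a := fun h => (Finset.mem_erase.1 hb).1 (Fin.ext h)
          exact (h1 b).trans (max_le (h3 b b.2 hne) le_rfl)
        calc _ ≤ fv v (t a) * 1 := mul_le_mul h7 h8
              (Finset.prod_nonneg fun b _ => apply_nonneg _ _) (by linarith)
          _ = _ := mul_one _
      refine h6.trans ?_
      rw [← h4]
      exact le_ciSup (f := fun i => fv v (ZZ y t n i)) (Set.finite_range _).bddAbove _

/-- lower bound for the heights of the parameters -/
lemma hh_tt {m : ℕ} {W : M} {u : ℕ → M} (hu : Chain m W u) (hne : ∀ j ≤ m, 1 + u j ≠ 0) :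
    ∀ j ≤ m, hh W - 7 * (j + 1) * Real.log 2 ≤ hh (tt (u j)) := by
  have hl : 0 < Real.log 2 := Real.log_pos (by norm_num)
  have h2 : hh (2 : M) = Real.log 2 := by
    have := hh_natCast (K := M) 2
    push_cast at this
    exact this
  -- the Moebius transformation
  have key : ∀ x : M, 1 + x ≠ 0 → 2 * hh x - 6 * Real.log 2 ≤ hh (tt x) := by
    intro x hx
    set s := (1 - x) / (1 + x) with hs
    have h3 : hh (tt x) = 2 * hh s := by
      unfold tt
      rw [← hs, hh_pow]
      norm_num
    have hs1 : 1 + s ≠ 0 := by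
      have h4 : 1 + s = 2 / (1 + x) := by
        rw [hs]
        field_simp
        ring
      rw [h4]
      exact div_ne_zero two_ne_zero hx
    have h4 : x = 2 / (1 + s) - 1 := by
      rw [hs]
      field_simp
      ring
    have h5 : hh x ≤ hh s + 3 * Real.log 2 := by
      have e1 := hh_sub_le (2 / (1 + s)) 1
      have e2 := hh_div_le (2 : M) (1 + s)
      have e3 := hh_add_le 1 s
      rw [← h4] at e1
      rw [hh_one] at e1 e3
      rw [h2] at e2
      linarith
    rw [h3]
    linarith
  intro j
  induction j with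
  | zero =>
    intro _
    have h3 := key (u 0) (hne 0 (Nat.zero_le _))
    have h4 : hh W = 2 * hh (u 0) := by
      rw [← hu.1, hh_pow]
      norm_num
    push_cast
    linarith
  | succ j ih =>
    intro hj
    have h3 := key (u (j + 1)) (hne (j + 1) hj)
    have h4 := ih (by omega)
    have hj1 := hne j (by omega)
    have h5 : 2 * hh (u (j + 1)) = hh (yy (u j)) := by
      rw [← hu.sq (by omega) hj1, hh_pow]
      norm_num
    have h6 : hh (tt (u j)) ≤ hh (yy (u j)) + Real.log 2 := by
      have h7 : tt (u j) = 1 - yy (u j) := by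
        rw [← tt_add_yy hj1]; ring
      rw [h7]
      have := hh_sub_le 1 (yy (u j))
      rw [hh_one] at this
      linarith
    push_cast
    linarith

end ht

end Pool.Agent.H10UD
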