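import Mathlib
import Pool.Agent.H10UD.Pts

set_option autoImplicit false

/-!
The existence of the points.
-/

namespace Pool.Agent.H10UD

open NumberField IsDedekindDomain Module Height Pool.Agent.W231.V Pool.Agent.Y733.VR
  IntermediateField

lemma exists_above_three (K : Type) [Field K] [NumberField K] :
    ∃ v : HeightOneSpectrum (𝓞 K), fv v (2 : K) = 1 := by
  have h3 : ∃ v : HeightOneSpectrum (𝓞 K), fv v (3 : K) < 1 := by
    by_contra! h
    have h1 := prod_form (M := K) (u := 3) three_ne_zero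
    have h2 : ∀ v : HeightOneSpectrum (𝓞 K), Real.log (fv v (3 : K)) = 0 := by
      intro v
      have e1 := fv_nat v 3
      push_cast at e1
      rw [le_antisymm e1 (h v), Real.log_one]
    rw [finsum_congr h2, finsum_zero, add_zero] at h1
    have h4 : ∀ w : InfinitePlace K, (w.mult : ℝ) * Real.log (w (3 : K)) =
        w.mult * Real.log 3 := by
      intro w
      have : w (3 : K) = 3 := by
        have := InfinitePlace.map_natCast (K := K) w 3
        simpa using this
      rw [this]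
    rw [Finset.sum_congr rfl fun w _ => h4 w, ← Finset.sum_mul, sum_mult_eq] at h1
    have h5 : (0 : ℝ) < finrank ℚ K := by exact_mod_cast finrank_pos
    have h6 : 0 < Real.log 3 := Real.log_pos (by norm_num)
    nlinarith [mul_pos h5 h6]
  obtain ⟨v, hv⟩ := h3
  refine ⟨v, ?_⟩
  have e1 : fv v (2 : K) ≤ 1 := by
    have := fv_nat v 2
    push_cast at this
    exact this
  refine le_antisymm e1 ?_
  by_contra! h
  have h1 := fv_na v (3 : K) (-2)
  rw [AbsoluteValue.map_neg, show (3 : K) + -2 = 1 by norm_num, map_one] at h1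
  exact absurd h1 (not_le.2 (max_lt hv h))

variable {K M : Type} [Field K] [NumberField K] [Field M] [NumberField M] [Algebra K M]

variable (M) in
lemma exists_over (q : HeightOneSpectrum (𝓞 K)) :
    ∃ w : HeightOneSpectrum (𝓞 M), w.under (𝓞 K) = q := by
  obtain ⟨p, hp1, hp2⟩ := q
  obtain ⟨P, hP, rfl⟩ := p.exists_ideal_over_prime_of_isIntegral_of_isDomain (S := 𝓞 M) (by simp)
  exact ⟨⟨P, hP, by aesop⟩, rfl⟩

lemma fv_lt_one_iff (v : HeightOneSpectrum (𝓞 M)) (x : M) : fv v x < 1 ↔ v.valuation M x < 1 := by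
  rw [lt_iff_le_and_ne, lt_iff_le_and_ne, Pool.Agent.H10VJ.fv_le_one_iff, Ne, Ne, fv_eq_one_iff]

lemma fv_mem (v : HeightOneSpectrum (𝓞 M)) (x : 𝓞 M) : fv v (x : M) = 1 ↔ x ∉ v.asIdeal := by
  rw [fv_eq_one_iff]
  exact HeightOneSpectrum.valuation_eq_one_iff_notMem v

theorem exists_pts (K : Type) [Field K] [NumberField K] (n l : ℕ) (hn : 1 ≤ n) (hl : 1 ≤ l) :
    ∃ (π : 𝓞 K) (C0 : ℝ) (k0 : ℕ), π ≠ 0 ∧ ∀ k ≥ k0, π * 2 ^ k - 1 ≠ 0 ∧
      ∃ (M : Type) (_ : Field M) (_ : NumberField M) (_ : Algebra K M) (y t : ℕ → M),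
        (∀ i < n, t i + y i = 1) ∧ (∀ i < n, y i ≠ 0 ∧ t i ≠ 0) ∧
        K⟮y 0⟯ = ⊤ ∧ finrank K M = 2 ^ (n * l) ∧
        (∀ (d : ℕ) (G : MvPolynomial (Fin (n + 1)) K), G.IsHomogeneous d → G ≠ 0 → d < 2 ^ l →
          MvPolynomial.aeval (fun i : Fin (n + 1) => YY y n i) G ≠ 0) ∧
        finrank ℚ M * (n * (k * Real.log 2) - C0) ≤ logHeight (ZZ y t n) ∧
        ∀ v : HeightOneSpectrum (𝓞 M),
          algebraMap (𝓞 K) (𝓞 M) (2 * π * (π * 2 ^ k - 1)) ∉ v.asIdeal →
          (∀ i < n, fv v (y i) = 1 ∧ fv v (t i) = 1) ∧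
            ¬ v.asIdeal ∣ differentIdeal (𝓞 K) (𝓞 M) := by
  classical
  obtain ⟨q, hq2⟩ := exists_above_three K
  obtain ⟨π, hπ⟩ := q.valuation_exists_uniformizer' K
  have hπ0 : π ≠ 0 := by
    rintro rfl
    have h1 : q.valuation K ((0 : 𝓞 K) : K) = 0 := by
      rw [show ((0 : 𝓞 K) : K) = 0 from rfl, map_zero]
    rw [h1] at hπ
    exact (WithZero.exp_ne_zero (a := (-1 : ℤ))) hπ.symm
  have hπK : (π : K) ≠ 0 := by rwa [Ne, RingOfIntegers.coe_eq_zero_iff]
  obtain ⟨m, hm⟩ : ∃ m, m + 1 = n * l := ⟨n * l - 1, Nat.sub_add_cancel (Nat.mul_pos hn hl)⟩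
  obtain ⟨δ, hδ, harch⟩ := arch_chain m (1 / 32) (by norm_num)
  obtain ⟨w0, hw0⟩ := Finite.exists_min fun w : InfinitePlace K => w (π : K)
  set c0 : ℝ := w0 (π : K) with hc0
  have hc0pos : 0 < c0 := w0.pos_iff.2 hπK
  obtain ⟨k1, hk1⟩ := pow_unbounded_of_one_lt (max (1 / (c0 * δ)) (1 / c0))
    (by norm_num : (1 : ℝ) < 2)
  have hl2 : 0 < Real.log 2 := Real.log_pos (by norm_num)
  refine ⟨π, n * (hh (π : K) + 7 * (m + 1) * Real.log 2) + Real.log (2 ^ n * (n + 1)),
    k1 + 1, hπ0, ?_⟩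
  intro k hk
  have h2k : max (1 / (c0 * δ)) (1 / c0) < (2 : ℝ) ^ k :=
    hk1.trans_le (pow_le_pow_right₀ (by norm_num) (by omega))
  have h2k1 : 1 / (c0 * δ) < (2 : ℝ) ^ k := (le_max_left _ _).trans_lt h2k
  have h2k2 : 1 / c0 < (2 : ℝ) ^ k := (le_max_right _ _).trans_lt h2k
  have hΔK : (π : K) * 2 ^ k - 1 ≠ 0 := by
    intro h
    have h1 : (π : K) * 2 ^ k = 1 := sub_eq_zero.1 h
    have h2 := congrArg w0 h1
    rw [map_mul, map_pow, map_one] at h2
    have h3 : w0 (2 : K) = 2 := by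
      have := InfinitePlace.map_natCast (K := K) w0 2
      simpa using this
    rw [h3] at h2
    rw [div_lt_iff₀ hc0pos] at h2k2
    change c0 * 2 ^ k = 1 at h2
    linarith
  have hΔ : π * 2 ^ k - 1 ≠ 0 := by
    intro h
    apply hΔK
    have := congrArg (algebraMap (𝓞 K) K) h
    rw [map_sub, map_mul, map_pow, map_one, map_zero] at this
    rw [show (algebraMap (𝓞 K) K) 2 = 2 from map_ofNat _ 2] at this
    exact this
  refine ⟨hΔ, ?_⟩
  set W : K := 1 / ((π : K) * 2 ^ k) with hW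
  obtain ⟨M, fM, nM, aM, u, hu, htop⟩ := exists_chain K W m
  have hdeg : finrank K M ≤ 2 ^ (m + 1) := chain_deg m K M W u hu htop
  -- the prime above `q`
  obtain ⟨w, hw⟩ := exists_over M q
  obtain ⟨e, he, hev⟩ := val_under (K := K) w
  rw [hw] at hev
  have hw2 : fv w (2 : M) = 1 := by
    rw [fv_eq_one_iff]
    have h1 := hev 2
    rw [show algebraMap K M 2 = 2 from map_ofNat _ 2, (fv_eq_one_iff q 2).1 hq2, one_pow] at h1
    exact h1.symm
  set ρ : ℝ := fv w (algebraMap K M (π : K)) with hρ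
  have hρ0 : 0 < ρ := (fv w).pos (by rwa [Ne, FaithfulSMul.algebraMap_eq_zero_iff])
  have hρ1 : ρ < 1 := by
    rw [hρ, fv_lt_one_iff, ← hev]
    have h1 : q.valuation K (π : K) = WithZero.exp (-1 : ℤ) := hπ
    rw [h1]
    have h2 : (WithZero.exp (-1 : ℤ) : WithZero (Multiplicative ℤ)) < 1 := by
      rw [← WithZero.exp_zero, WithZero.exp_lt_exp]
      norm_num
    exact pow_lt_one₀ zero_le h2 he
  have hWM : algebraMap K M W = 1 / (algebraMap K M (π : K) * 2 ^ k) := by
    rw [hW, map_div₀, map_one, map_mul, map_pow, map_ofNat]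
  have hπM : algebraMap K M (π : K) ≠ 0 := by rwa [Ne, FaithfulSMul.algebraMap_eq_zero_iff]
  have hwW : fv w (algebraMap K M W) = ρ⁻¹ := by
    rw [hWM, map_div₀, map_mul, map_pow, hw2, map_one, one_pow, mul_one, one_div]
  have hval := chain_val w hu hρ0 hρ1 hw2 hwW
  have hne : ∀ j ≤ m, 1 + u j ≠ 0 := by
    intro j hj h
    have h1 := fv_one_add w (hval j hj).1.1
    rw [h, map_zero] at h1
    have : (0 : ℝ) < max 1 (fv w (u j)) := lt_max_of_lt_left one_pos
    linarith
  have hne' : ∀ j ≤ m, 1 - u j ≠ 0 := by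
    intro j hj h
    have h1 := fv_one_sub w (hval j hj).1.1
    rw [h, map_zero] at h1
    have : (0 : ℝ) < max 1 (fv w (u j)) := lt_max_of_lt_left one_pos
    linarith
  have hyne : ∀ j ≤ m, yy (u j) ≠ 0 := fun j hj => by
    unfold yy
    exact div_ne_zero (mul_ne_zero (by norm_num) (hval j hj).1.2) (pow_ne_zero _ (hne j hj))
  have htne : ∀ j ≤ m, tt (u j) ≠ 0 := fun j hj => by
    unfold tt
    exact pow_ne_zero _ (div_ne_zero (hne' j hj) (hne j hj))
  -- the value of the last parameter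
  set τ : ℝ := fv w (yy (u m)) with hτ
  have hτ0 : 0 < τ := (fv w).pos (hyne m le_rfl)
  have hτρ : τ ^ 2 ^ (m + 1) = ρ := (hval m le_rfl).2
  have hτ1 : τ < 1 := by
    by_contra! h
    have := one_le_pow₀ h (n := 2 ^ (m + 1))
    linarith
  have hKV : KVal K w τ (2 ^ (m + 1)) := by
    intro c hc
    obtain ⟨a, ha⟩ := kval w hπK (by rw [hw]; exact hπ) c hc
    refine ⟨a, ?_⟩
    rw [ha, ← hρ, ← hτρ, zpow_mul, zpow_natCast]
  have hyval : ∀ j ≤ m, fv w (yy (u j)) = τ ^ 2 ^ (m - j) := by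
    intro j hj
    have h1 := (hval j hj).2
    have h2 : (τ ^ 2 ^ (m - j)) ^ 2 ^ (j + 1) = ρ := by
      rw [← pow_mul, ← pow_add, show m - j + (j + 1) = m + 1 by omega, hτρ]
    exact (pow_left_inj₀ (apply_nonneg _ _) (pow_nonneg hτ0.le _)
      (pow_ne_zero _ two_ne_zero)).1 (h1.trans h2.symm)
  have hgen := gen_top (K := K) w hτ0 hτ1 hKV (y := yy (u m)) rfl hdeg
  -- the indices
  set J : ℕ → ℕ := fun i => (n - i) * l - 1 with hJ
  have hJpos : ∀ i < n, 1 ≤ (n - i) * l := fun i hi => Nat.mul_pos (by omega) hl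
  have hJlt : ∀ i j, i < j → j < n → J j < J i := by
    intro i j hij hjn
    have h1 : (n - j) * l < (n - i) * l := Nat.mul_lt_mul_of_pos_right (by omega) hl
    have h2 := hJpos j hjn
    simp only [hJ]
    omega
  have hJm : ∀ i < n, J i ≤ m := by
    intro i hi
    have h1 : (n - i) * l ≤ n * l := Nat.mul_le_mul_right _ (by omega)
    simp only [hJ]
    omega
  have hJ0 : J 0 = m := by
    simp only [hJ, Nat.sub_zero]
    omega
  have hJsub : ∀ i < n, m - J i = l * i := by
    intro i hi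
    have h1 : (n - i) * l = n * l - i * l := Nat.sub_mul _ _ _
    have h2 : i * l ≤ n * l := Nat.mul_le_mul_right _ hi.le
    have h3 := hJpos i hi
    simp only [hJ]
    rw [mul_comm l i]
    omega
  refine ⟨M, fM, nM, aM, fun i => yy (u (J i)), fun i => tt (u (J i)), ?_, ?_, ?_, ?_, ?_, ?_, ?_⟩
  · exact fun i hi => tt_add_yy (hne _ (hJm i hi))
  · exact fun i hi => ⟨hyne _ (hJm i hi), htne _ (hJm i hi)⟩
  · simp only [hJ0]
    exact hgen.1
  · rw [hgen.2, hm]
  · intro d G hG hG0 hd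
    have hKV' : KVal K w τ ((2 ^ l) ^ n) := by
      rw [← pow_mul, mul_comm l n, ← hm]
      exact hKV
    refine eval_ne w hτ0 hτ1 hKV' (fun i => yy (u (J i))) ?_ hG hG0 hd
    intro i hi
    rw [hyval _ (hJm i hi), hJsub i hi, pow_mul]
  · -- the height
    have h1 := seg_le (n := n) (fun i => yy (u (J i))) (fun i => tt (u (J i)))
      (fun i hi => tt_add_yy (hne _ (hJm i hi))) ?_ ?_
    · have h2 : ∀ i < n, finrank ℚ M * (k * Real.log 2 - (hh (π : K) +
          7 * (m + 1) * Real.log 2)) ≤ logHeight₁ (tt (u (J i))) := by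
        intro i hi
        have e1 := hh_tt hu hne (J i) (hJm i hi)
        rw [hh_ext] at e1
        have e2 : hh W = hh ((π : K) * 2 ^ k) := by
          rw [hW, one_div, hh_inv]
        have e3 : (k : ℝ) * Real.log 2 ≤ hh ((π : K) * 2 ^ k) + hh (π : K) := by
          have e4 := hh_div_le ((π : K) * 2 ^ k) (π : K)
          rw [mul_div_cancel_left₀ _ hπK, hh_pow] at e4
          have e5 := hh_natCast (K := K) 2
          push_cast at e5
          rw [e5] at e4
          exact e4
        have e6 : (J i : ℝ) ≤ m := by exact_mod_cast hJm i hi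
        have e7 : 7 * ((J i : ℝ) + 1) * Real.log 2 ≤ 7 * ((m : ℝ) + 1) * Real.log 2 := by
          gcongr
        rw [hh_mul_deg, mul_comm]
        refine mul_le_mul_of_nonneg_right ?_ (Nat.cast_nonneg _)
        rw [e2] at e1
        linarith
      have h3 : ∑ _i : Fin n, (finrank ℚ M : ℝ) * (k * Real.log 2 - (hh (π : K) +
          7 * (m + 1) * Real.log 2)) ≤ ∑ i : Fin n, logHeight₁ (tt (u (J i))) :=
        Finset.sum_le_sum fun i _ => h2 i i.2
      rw [Finset.sum_const, Finset.card_univ, Fintype.card_fin, nsmul_eq_mul] at h3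
      have h4 := h3.trans h1
      have h5 : (finrank ℚ M : ℝ) * (n * (k * Real.log 2) - (n * (hh (π : K) +
          7 * (m + 1) * Real.log 2) + Real.log (2 ^ n * (n + 1)))) =
          n * (finrank ℚ M * (k * Real.log 2 - (hh (π : K) + 7 * (m + 1) * Real.log 2))) -
            finrank ℚ M * Real.log (2 ^ n * (n + 1)) := by ring
      rw [h5]
      linarith
    · -- the local condition
      intro v a ha hta
      have hv : fv v 2 = 1 ∨ fv v (u 0) ≠ 1 := by
        by_cases h2 : fv v (2 : M) = 1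
        · exact Or.inl h2
        right
        intro h0
        have e1 : fv v (2 : M) ≤ 1 := by
          have := fv_nat v 2
          push_cast at this
          exact this
        have e2 : fv v (2 : M) < 1 := lt_of_le_of_ne e1 h2
        have e3 : fv v (algebraMap K M (π : K)) ≤ 1 :=
          Pool.Agent.H10VJ.fv_int v (algebraMap (𝓞 K) (𝓞 M) π)
        have e4 := congrArg (fv v) hu.1
        rw [map_pow, h0, one_pow, hWM, map_div₀, map_one, map_mul, map_pow] at e4
        have e5 : fv v (algebraMap K M (π : K)) * fv v (2 : M) ^ k = 1 := by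
          have h6 : fv v (algebraMap K M (π : K)) * fv v (2 : M) ^ k ≠ 0 := by
            intro h7
            rw [h7, div_zero] at e4
            exact one_ne_zero e4
          rw [eq_div_iff h6, one_mul] at e4
          exact e4
        have e6 : fv v (2 : M) ^ k < 1 := pow_lt_one₀ (apply_nonneg _ _) e2 (by omega)
        have e7 : 0 ≤ fv v (2 : M) ^ k := pow_nonneg (apply_nonneg _ _) _
        have e8 := mul_le_mul_of_nonneg_right e3 e7
        linarith
      obtain ⟨h1, h2⟩ := type_chain v hu hne hv (hJm a ha) hta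
      refine ⟨fun j haj hjn => h1 _ (hJlt a j haj hjn), fun b hb hba => h2 _ (hJm b hb) ?_⟩
      rcases lt_or_gt_of_ne hba with h3 | h3
      · exact (hJlt b a h3 ha).ne'
      · exact (hJlt a b h3 hb).ne
    · -- the archimedean places
      intro v i hi
      have h1 : v.1 (algebraMap K M W) ≤ δ := by
        have e1 : v.1 (algebraMap K M W) = 1 / (v.1 (algebraMap K M (π : K)) * 2 ^ k) := by
          rw [hWM, map_div₀, map_one, map_mul, map_pow]
          congr 3
          have := InfinitePlace.map_natCast (K := M) v 2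
          push_cast at this
          exact this
        have e2 : c0 ≤ v.1 (algebraMap K M (π : K)) := hw0 (v.comap (algebraMap K M))
        have e0 : 0 < v.1 (algebraMap K M (π : K)) := hc0pos.trans_le e2
        rw [e1, div_le_iff₀ (by positivity)]
        rw [div_lt_iff₀ (by positivity)] at h2k1
        have e3 : δ * (c0 * 2 ^ k) ≤ δ * (v.1 (algebraMap K M (π : K)) * 2 ^ k) := by gcongr
        linarith
      exact arch_tt v.1 (harch M (algebraMap K M W) u v.1 hu h1 (J i) (hJm i hi))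
  · -- the good primes
    intro v hv
    have hmul : ∀ a b : 𝓞 K, algebraMap (𝓞 K) (𝓞 M) (a * b) ∉ v.asIdeal →
        algebraMap (𝓞 K) (𝓞 M) a ∉ v.asIdeal ∧ algebraMap (𝓞 K) (𝓞 M) b ∉ v.asIdeal := by
      intro a b hab
      rw [map_mul] at hab
      exact ⟨fun h => hab (Ideal.mul_mem_right _ _ h), fun h => hab (Ideal.mul_mem_left _ _ h)⟩
    obtain ⟨hv1, hv2⟩ := hmul _ _ hv
    obtain ⟨hv3, hv4⟩ := hmul _ _ hv1
    have h2 : fv v (2 : M) = 1 := by
      have := (fv_mem v (algebraMap (𝓞 K) (𝓞 M) 2)).2 hv3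
      rw [map_ofNat] at this
      exact this
    have hπv : fv v (algebraMap K M (π : K)) = 1 := (fv_mem v (algebraMap (𝓞 K) (𝓞 M) π)).2 hv4
    have hΔv : fv v (algebraMap K M (π : K) * 2 ^ k - 1) = 1 := by
      have h3 := (fv_mem v (algebraMap (𝓞 K) (𝓞 M) (π * 2 ^ k - 1))).2 hv2
      have h4 : ((algebraMap (𝓞 K) (𝓞 M) (π * 2 ^ k - 1) : 𝓞 M) : M) =
          algebraMap K M (π : K) * 2 ^ k - 1 := by
        rw [map_sub, map_mul, map_pow, map_ofNat, map_one]
        push_cast
        rfl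
      rwa [h4] at h3
    have hWv : fv v (algebraMap K M W) = 1 := by
      rw [hWM, map_div₀, map_mul, map_pow, h2, hπv, map_one]
      norm_num
    have hWv1 : fv v (1 - algebraMap K M W) = 1 := by
      have h3 : 1 - algebraMap K M W = (algebraMap K M (π : K) * 2 ^ k - 1) /
          (algebraMap K M (π : K) * 2 ^ k) := by
        rw [hWM]
        field_simp
      rw [h3, map_div₀, hΔv, map_mul, map_pow, h2, hπv]
      norm_num
    have hgood := good_chain v hu hne h2 hWv hWv1
    refine ⟨fun i hi => ⟨(hgood _ (hJm i hi)).2.2, (hgood _ (hJm i hi)).2.1⟩, ?_⟩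
    refine chain_unr m K M W u hu htop v ?_ fun j hj => ?_
    · exact (fv_eq_one_iff v 2).1 h2
    · exact (fv_eq_one_iff v _).1 (hgood j hj).1

end Pool.Agent.H10UD
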