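import Mathlib
import Pool.Agent.H10UD.Ex
import Pool.Agent.H10UD.Dif

set_option autoImplicit false

/-!
Assembly.
-/

namespace Pool.Agent.H10UD

open NumberField IsDedekindDomain Module Height Pool.Agent.W231.V Pool.Agent.Y733.VR
  IntermediateField

/-- bounds for the values of a form with integral coefficients -/
lemma form_bound {K : Type} [Field K] [NumberField K] {n e : ℕ}
    {P : MvPolynomial (Fin (n + 1)) K} (hP : P.IsHomogeneous e)
    (hint : ∀ a, ∃ r : 𝓞 K, (r : K) = P.coeff a) : ∃ C : ℝ, 0 < C ∧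
    ∀ (M : Type) [Field M] [NumberField M] [Algebra K M] (x : Fin (n + 1) → M),
      (∀ v : HeightOneSpectrum (𝓞 M), fv v (MvPolynomial.aeval x P) ≤ (⨆ j, fv v (x j)) ^ e) ∧
      ∀ w : InfinitePlace M, w (MvPolynomial.aeval x P) ≤ C * (⨆ j, w (x j)) ^ e := by
  classical
  set C : ℝ := ∑ a ∈ P.support, ∑ w : InfinitePlace K, w (P.coeff a) + 1 with hC
  have hC0 : 0 ≤ ∑ a ∈ P.support, ∑ w : InfinitePlace K, w (P.coeff a) :=
    Finset.sum_nonneg fun a _ => Finset.sum_nonneg fun w _ => apply_nonneg _ _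
  refine ⟨C, by linarith, fun M _ _ _ x => ?_⟩
  have hev : MvPolynomial.aeval x P =
      ∑ a ∈ P.support, algebraMap K M (P.coeff a) * ∏ i, x i ^ a i := by
    rw [MvPolynomial.aeval_def, MvPolynomial.eval₂_eq']
  have hmon : ∀ (f : AbsoluteValue M ℝ), ∀ a ∈ P.support,
      f (∏ i, x i ^ a i) ≤ (⨆ j, f (x j)) ^ e := by
    intro f a ha
    have hdeg : ∑ i, a i = e := by
      have h1 : a.degree = e := by
        rw [Finsupp.degree_eq_weight_one]
        exact hP (MvPolynomial.mem_support_iff.1 ha)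
      rw [← h1, Finsupp.degree_eq_sum]
    rw [← hdeg, ← Finset.prod_pow_eq_pow_sum, map_prod]
    refine Finset.prod_le_prod (fun i _ => apply_nonneg _ _) fun i _ => ?_
    rw [map_pow]
    exact pow_le_pow_left₀ (apply_nonneg _ _)
      (le_ciSup (f := fun j => f (x j)) (Set.finite_range _).bddAbove i) _
  constructor
  · intro v
    have hna : IsNonarchimedean (fv v : M → ℝ) := fun a b => fv_na v a b
    have hsup : 0 ≤ (⨆ j, fv v (x j)) ^ e :=
      pow_nonneg (Real.iSup_nonneg fun i => apply_nonneg _ _) _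
    rw [hev]
    rcases P.support.eq_empty_or_nonempty with h0 | h0
    · rw [h0, Finset.sum_empty, map_zero]
      exact hsup
    · obtain ⟨a, ha, hle⟩ := hna.finset_image_add_of_nonempty
        (fun a => algebraMap K M (P.coeff a) * ∏ i, x i ^ a i) h0
      refine hle.trans ?_
      rw [map_mul]
      obtain ⟨r, hr⟩ := hint a
      have h1 : fv v (algebraMap K M (P.coeff a)) ≤ 1 := by
        rw [← hr]
        exact Pool.Agent.H10VJ.fv_int v (algebraMap (𝓞 K) (𝓞 M) r)
      calc _ ≤ 1 * (⨆ j, fv v (x j)) ^ e :=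
            mul_le_mul h1 (hmon (fv v) a ha) (apply_nonneg _ _) zero_le_one
        _ = _ := one_mul _
  · intro w
    have hsup : 0 ≤ (⨆ j, w (x j)) ^ e :=
      pow_nonneg (Real.iSup_nonneg fun i => apply_nonneg _ _) _
    rw [hev]
    have h1 : w (∑ a ∈ P.support, algebraMap K M (P.coeff a) * ∏ i, x i ^ a i) ≤
        ∑ a ∈ P.support, w (algebraMap K M (P.coeff a) * ∏ i, x i ^ a i) := w.1.sum_le _ _
    refine h1.trans ?_
    have h2 : ∀ a ∈ P.support, w (algebraMap K M (P.coeff a) * ∏ i, x i ^ a i) ≤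
        (∑ w : InfinitePlace K, w (P.coeff a)) * (⨆ j, w (x j)) ^ e := by
      intro a ha
      rw [map_mul]
      refine mul_le_mul ?_ (hmon w.1 a ha) (apply_nonneg _ _)
        (Finset.sum_nonneg fun w _ => apply_nonneg _ _)
      exact Finset.single_le_sum (f := fun w : InfinitePlace K => w (P.coeff a))
        (fun w _ => apply_nonneg _ _) (Finset.mem_univ (w.comap (algebraMap K M)))
    refine (Finset.sum_le_sum h2).trans ?_
    rw [← Finset.sum_mul]
    refine mul_le_mul_of_nonneg_right ?_ hsup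
    rw [hC]
    linarith

/-- a common denominator -/
lemma exists_den {K : Type} [Field K] [NumberField K] (B : Finset K) :
    ∃ c : 𝓞 K, c ≠ 0 ∧ ∀ z ∈ B, ∃ r : 𝓞 K, (r : K) = (c : K) * z := by
  obtain ⟨b, hb⟩ := IsLocalization.exist_integer_multiples_of_finset (nonZeroDivisors (𝓞 K)) B
  refine ⟨b, nonZeroDivisors.ne_zero b.2, fun z hz => ?_⟩
  obtain ⟨r, hr⟩ := hb z hz
  refine ⟨r, ?_⟩
  rw [Algebra.smul_def] at hr
  exact hr

/-- the linear form with the coefficients `a` -/
noncomputable def lin {K : Type} [Field K] {n : ℕ} (a : Fin (n + 1) → K) :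
    MvPolynomial (Fin (n + 1)) K :=
  ∑ j, MvPolynomial.C (a j) * MvPolynomial.X j

lemma lin_hom {K : Type} [Field K] {n : ℕ} (a : Fin (n + 1) → K) : (lin a).IsHomogeneous 1 := by
  refine MvPolynomial.IsHomogeneous.sum _ _ _ fun j _ => ?_
  have := (MvPolynomial.isHomogeneous_C (Fin (n + 1)) (a j)).mul
    (MvPolynomial.isHomogeneous_X K j)
  rwa [zero_add] at this

lemma aeval_lin {K M : Type} [Field K] [Field M] [Algebra K M] {n : ℕ} (a : Fin (n + 1) → K)
    (x : Fin (n + 1) → M) : MvPolynomial.aeval x (lin a) = ∑ j, algebraMap K M (a j) * x j := by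
  unfold lin
  rw [map_sum]
  refine Finset.sum_congr rfl fun j _ => ?_
  rw [map_mul, MvPolynomial.aeval_C, MvPolynomial.aeval_X]

lemma coeff_lin {K : Type} [Field K] {n : ℕ} (a : Fin (n + 1) → K) (b : Fin (n + 1) →₀ ℕ) :
    (lin a).coeff b = 0 ∨ ∃ j, (lin a).coeff b = a j := by
  classical
  unfold lin
  rw [MvPolynomial.coeff_sum]
  have h1 : ∀ j, MvPolynomial.coeff b (MvPolynomial.C (a j) * MvPolynomial.X j) =
      if Finsupp.single j 1 = b then a j else 0 := by
    intro j
    rw [MvPolynomial.coeff_C_mul, MvPolynomial.coeff_X]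
    split_ifs <;> simp
  rw [Finset.sum_congr rfl fun j _ => h1 j]
  by_cases h : ∃ j, Finsupp.single j 1 = b
  · obtain ⟨j, hj⟩ := h
    right
    refine ⟨j, ?_⟩
    rw [Finset.sum_eq_single j]
    · rw [if_pos hj]
    · intro i _ hij
      rw [if_neg]
      intro h2
      apply hij
      have := h2.trans hj.symm
      exact (Finsupp.single_left_injective one_ne_zero) this
    · intro h; exact absurd (Finset.mem_univ j) h
  · push Not at h
    left
    refine Finset.sum_eq_zero fun j _ => ?_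
    rw [if_neg (h j)]

theorem main (K : Type) [Field K] [NumberField K] (n : ℕ) (hn : 1 ≤ n)
    (L : Fin (n + 2) → Fin (n + 1) → K)
    (hL : ∀ s : Finset (Fin (n + 2)), s.card = n + 1 → LinearIndependent K fun i : s => L i)
    (E : MvPolynomial (Fin (n + 1)) K) (e : ℕ) (hE : E.IsHomogeneous e) (hE0 : E ≠ 0)
    (c : ℝ) (hc : 1 / (n : ℝ) < c) (l : ℕ) (hl : 1 ≤ l) (hel : e < 2 ^ l)
    (G : MvPolynomial (Fin (n + 1)) K) (d : ℕ) (hG : G.IsHomogeneous d) (hG0 : G ≠ 0)
    (hd : d < 2 ^ l) (Cst : ℝ) :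
    ∃ (M : Type) (_ : Field M) (_ : NumberField M) (_ : Algebra K M) (x : Fin (n + 1) → M)
      (T : Finset (HeightOneSpectrum (𝓞 M))),
      IntermediateField.adjoin K {z | ∃ i j, z = x i / x j} = ⊤ ∧ finrank K M = 2 ^ (n * l) ∧
      MvPolynomial.aeval x G ≠ 0 ∧ (∀ i, MvPolynomial.aeval x (lin (L i)) ≠ 0) ∧
      MvPolynomial.aeval x E ≠ 0 ∧ Cst ≤ logHeight x / finrank K M ∧
      (∀ w, w ∉ T → ∀ j, ¬ fv w (MvPolynomial.aeval x ((∏ i, lin (L i)) * E)) <
        fv w (x j) ^ (n + 2 + e)) ∧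
      (∑ w ∈ T, ell w) / finrank K M +
        (Real.log |(discr M : ℝ)| / finrank K M - Real.log |(discr K : ℝ)|) + Cst ≤
        (e + c) * (logHeight x / finrank K M) := by
  classical
  obtain ⟨hind, b, hb, hL0⟩ := gp_basis hL
  obtain ⟨π, C0, k0, hπ0, hex⟩ := exists_pts K n l hn hl
  -- the matrix
  set A : Matrix (Fin (n + 1)) (Fin (n + 1)) K := fun i => b i • L i.succ with hA
  have hAu : IsUnit A := by
    rw [← Matrix.linearIndependent_rows_iff_isUnit]
    have := hind.units_smul (fun i => Units.mk0 (b i) (hb i))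
    exact this
  have hAdet : IsUnit A.det := (Matrix.isUnit_iff_isUnit_det A).1 hAu
  have hA1 : A * A⁻¹ = 1 := Matrix.mul_nonsing_inv A hAdet
  have hA2 : A⁻¹ * A = 1 := Matrix.nonsing_inv_mul A hAdet
  set Q : Matrix (Fin (n + 1)) (Fin (n + 1)) K := A⁻¹ * dif K n with hQ
  have hQ1 : Q * (part K n * A) = 1 := by
    rw [hQ, Matrix.mul_assoc, ← Matrix.mul_assoc (dif K n), dif_mul, Matrix.one_mul, hA2]
  -- the denominators
  obtain ⟨c1, hc1, hden⟩ := exists_den (K := K)
    (Finset.univ.image (fun p : Fin (n + 1) × Fin (n + 1) => A p.1 p.2) ∪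
      Finset.univ.image (fun p : Fin (n + 1) × Fin (n + 1) => A⁻¹ p.1 p.2) ∪
      Finset.univ.image b ∪ Finset.univ.image (fun i => (b i)⁻¹) ∪ E.support.image E.coeff ∪ {0})
  have hc1K : (c1 : K) ≠ 0 := by rwa [Ne, RingOfIntegers.coe_eq_zero_iff]
  have hdA : ∀ i j, ∃ r : 𝓞 K, (r : K) = (c1 : K) * A i j := fun i j => hden _ (by
    simp only [Finset.mem_union]
    exact Or.inl (Or.inl (Or.inl (Or.inl (Or.inl
      (Finset.mem_image_of_mem (fun p : Fin (n + 1) × Fin (n + 1) => A p.1 p.2)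
        (Finset.mem_univ (i, j))))))))
  have hdA' : ∀ i j, ∃ r : 𝓞 K, (r : K) = (c1 : K) * A⁻¹ i j := fun i j => hden _ (by
    simp only [Finset.mem_union]
    exact Or.inl (Or.inl (Or.inl (Or.inl (Or.inr
      (Finset.mem_image_of_mem (fun p : Fin (n + 1) × Fin (n + 1) => A⁻¹ p.1 p.2)
        (Finset.mem_univ (i, j))))))))
  have hdb : ∀ i, ∃ r : 𝓞 K, (r : K) = (c1 : K) * b i := fun i => hden _ (by
    simp only [Finset.mem_union]
    exact Or.inl (Or.inl (Or.inl (Or.inr (Finset.mem_image_of_mem b (Finset.mem_univ i))))))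
  have hdb' : ∀ i, ∃ r : 𝓞 K, (r : K) = (c1 : K) * (b i)⁻¹ := fun i => hden _ (by
    simp only [Finset.mem_union]
    exact Or.inl (Or.inl (Or.inr (Finset.mem_image_of_mem (fun i => (b i)⁻¹)
      (Finset.mem_univ i)))))
  have hdE : ∀ a, ∃ r : 𝓞 K, (r : K) = (MvPolynomial.C (c1 : K) * E).coeff a := fun a => by
    rw [MvPolynomial.coeff_C_mul]
    by_cases ha : a ∈ E.support
    · refine hden _ ?_
      simp only [Finset.mem_union]
      exact Or.inl (Or.inr (Finset.mem_image_of_mem _ ha))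
    · rw [MvPolynomial.notMem_support_iff.1 ha]
      exact ⟨0, by simp⟩
  -- the bounds for the forms
  have hE' : (MvPolynomial.C (c1 : K) * E).IsHomogeneous e := by
    have := (MvPolynomial.isHomogeneous_C (Fin (n + 1)) (c1 : K)).mul hE
    rwa [zero_add] at this
  obtain ⟨CE, hCE, hbE⟩ := form_bound hE' hdE
  have hlinint : ∀ i, ∀ a, ∃ r : 𝓞 K, (r : K) = (lin (fun j => (c1 : K) * A i j)).coeff a := by
    intro i a
    rcases coeff_lin (fun j => (c1 : K) * A i j) a with h | ⟨j, h⟩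
    · rw [h]; exact ⟨0, by simp⟩
    · rw [h]; exact hdA i j
  choose CA hCA hbA using fun i => form_bound (lin_hom (fun j => (c1 : K) * A i j)) (hlinint i)
  set CA' : ℝ := ∑ i, CA i with hCA'
  have hCA'pos : 0 < CA' := Finset.sum_pos (fun i _ => hCA i) Finset.univ_nonempty
  have hCAle : ∀ i, CA i ≤ CA' := fun i =>
    Finset.single_le_sum (fun i _ => (hCA i).le) (Finset.mem_univ i)
  -- the constants
  have hl2 : 0 < Real.log 2 := Real.log_pos (by norm_num)
  have hnR : (1 : ℝ) ≤ n := by exact_mod_cast hn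
  have hn0 : (0 : ℝ) < n := by linarith
  have hcn : 1 < c * n := by rwa [div_lt_iff₀ hn0] at hc
  have hc0 : 0 < c := by
    have : 0 < 1 / (n : ℝ) := by positivity
    linarith
  obtain ⟨N0, hN0⟩ : ∃ N0 : ℝ, N0 = finrank ℚ K := ⟨_, rfl⟩
  have hN0pos : 0 < N0 := by rw [hN0]; exact_mod_cast finrank_pos
  set R : ℕ := 2 ^ (n * l) with hR
  obtain ⟨C3, hC3⟩ : ∃ C3, C3 = hh (((R.factorial : ℕ) : K)) + hh (c1 : K) + hh (2 * (π : K)) +
    hh (π : K) + Real.log 2 := ⟨_, rfl⟩
  obtain ⟨C6, hC6⟩ : ∃ C6, C6 = C0 + Real.log CA' := ⟨_, rfl⟩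
  obtain ⟨C7, hC7⟩ : ∃ C7, C7 = N0 * C3 + N0 * Real.log CE + Cst := ⟨_, rfl⟩
  obtain ⟨k2, hk2⟩ := exists_nat_ge (max ((C7 + c * N0 * C6) / (N0 * Real.log 2 * (c * n - 1)))
    ((Cst / N0 + C6) / (n * Real.log 2)))
  obtain ⟨k, hk⟩ : ∃ k, k = max k0 k2 := ⟨_, rfl⟩
  have hkk0 : k0 ≤ k := by rw [hk]; exact le_max_left _ _
  have hkk2 : (k2 : ℝ) ≤ k := by rw [hk]; exact_mod_cast le_max_right _ _
  have hineq1 : C7 + c * N0 * C6 ≤ N0 * (k * Real.log 2) * (c * n - 1) := by
    have h1 := (le_max_left _ _).trans (hk2.trans hkk2)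
    rw [div_le_iff₀ (by
      have : 0 < c * n - 1 := by linarith
      positivity)] at h1
    linarith
  have hineq2 : Cst ≤ N0 * (n * (k * Real.log 2) - C6) := by
    have h1 := (le_max_right _ _).trans (hk2.trans hkk2)
    rw [div_le_iff₀ (by positivity)] at h1
    have h2 : Cst / N0 ≤ n * (k * Real.log 2) - C6 := by linarith
    rw [div_le_iff₀ hN0pos] at h2
    linarith
  obtain ⟨hΔ, M, fM, nM, aM, y, t, hty, hyt, htop, hdeg, hform, hht, hgood⟩ := hex k hkk0
  have hdegR : (finrank K M : ℝ) = R := by rw [hdeg]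
  have hdpos : (0 : ℝ) < finrank K M := by exact_mod_cast finrank_pos
  have hQM : (finrank ℚ M : ℝ) = N0 * finrank K M := by
    rw [hN0]; exact finrank_tower K M
  -- the point
  set x : Fin (n + 1) → M := ((A⁻¹).map (algebraMap K M)).mulVec (ZZ y t n) with hx
  have hxQ : x = (Q.map (algebraMap K M)).mulVec (fun i : Fin (n + 1) => YY y n i) := by
    rw [hx, hQ, Matrix.map_mul, ← Matrix.mulVec_mulVec, dif_mulVec hty]
  have hAx : (A.map (algebraMap K M)).mulVec x = ZZ y t n := by
    rw [hx, Matrix.mulVec_mulVec, ← Matrix.map_mul, hA1]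
    rw [Matrix.map_one _ (map_zero _) (map_one _), Matrix.one_mulVec]
  have hAx' : ∀ i, ∑ j, algebraMap K M (A i j) * x j = ZZ y t n i := fun i => by
    rw [← hAx]; rfl
  have hLs : ∀ i : Fin (n + 1), algebraMap K M (b i) *
      MvPolynomial.aeval x (lin (L i.succ)) = ZZ y t n i := by
    intro i
    rw [← hAx' i, aeval_lin, Finset.mul_sum]
    refine Finset.sum_congr rfl fun j _ => ?_
    rw [hA, ← mul_assoc, ← map_mul]
    rfl
  have hL0x : MvPolynomial.aeval x (lin (L 0)) = 1 := by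
    rw [← ZZ_sum hty, aeval_lin, Finset.sum_congr rfl fun i _ => (hLs i).symm]
    simp only [aeval_lin, Finset.mul_sum]
    rw [Finset.sum_comm]
    refine Finset.sum_congr rfl fun j _ => ?_
    rw [hL0, Finset.sum_apply, map_sum, Finset.sum_mul]
    refine Finset.sum_congr rfl fun i _ => ?_
    rw [Pi.smul_apply, smul_eq_mul, map_mul]
    ring
  have hZ0 : ∀ i, ZZ y t n i ≠ 0 := by
    have hYY : ∀ i, YY y n i ≠ 0 := fun i => Finset.prod_ne_zero_iff.2 fun j hj =>
      (hyt j (Finset.mem_Ico.1 hj).2).1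
    intro i
    refine Fin.cases ?_ (fun i => ?_) i
    · rw [ZZ_zero]; exact hYY 0
    · rw [ZZ_succ]; exact mul_ne_zero (hYY _) (hyt i i.2).2
  have hLne : ∀ i, MvPolynomial.aeval x (lin (L i)) ≠ 0 := by
    intro i
    refine Fin.cases ?_ (fun i => ?_) i
    · rw [hL0x]; exact one_ne_zero
    · exact right_ne_zero_of_mul (by rw [hLs i]; exact hZ0 i)
  have hx0 : x ≠ 0 := by
    intro h
    apply hLne 0
    rw [aeval_lin]
    refine Finset.sum_eq_zero fun j _ => ?_
    rw [h, Pi.zero_apply, mul_zero]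
  have hZne : ZZ y t n ≠ 0 := fun h => hZ0 0 (congrFun h 0)
  -- nonvanishing
  have hnv : ∀ (P : MvPolynomial (Fin (n + 1)) K) (f : ℕ), P.IsHomogeneous f → P ≠ 0 →
      f < 2 ^ l → MvPolynomial.aeval x P ≠ 0 := by
    intro P f hP hP0 hf
    rw [hxQ, ← aeval_subst]
    exact hform f _ (subst_hom Q hP) (subst_ne hQ1 hP0) hf
  -- generation
  have hgen : IntermediateField.adjoin K {z | ∃ i j, z = x i / x j} = ⊤ := by
    set E' : IntermediateField K M := IntermediateField.adjoin K {z | ∃ i j, z = x i / x j}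
      with hE'def
    have h1 : ∀ i j, x i / x j ∈ E' := fun i j =>
      IntermediateField.subset_adjoin K _ ⟨i, j, rfl⟩
    have h2 : ∀ j, x j ∈ E' := by
      intro j
      by_cases hj : x j = 0
      · rw [hj]; exact zero_mem _
      have h3 : (x j)⁻¹ ∈ E' := by
        have h4 : (x j)⁻¹ = ∑ i, algebraMap K M (L 0 i) * (x i / x j) := by
          have h5 := hL0x
          rw [aeval_lin] at h5
          rw [← one_mul (x j)⁻¹, ← h5, Finset.sum_mul]
          refine Finset.sum_congr rfl fun i _ => ?_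
          rw [div_eq_mul_inv, mul_assoc]
        rw [h4]
        exact sum_mem fun i _ => mul_mem (IntermediateField.algebraMap_mem E' _) (h1 i j)
      have := inv_mem h3
      rwa [inv_inv] at this
    have h3 : ∀ i, ZZ y t n i ∈ E' := by
      intro i
      rw [← hAx' i]
      exact sum_mem fun j _ => mul_mem (IntermediateField.algebraMap_mem E' _) (h2 j)
    have h4 : ∀ i ≤ n, YY y n i ∈ E' := by
      intro i
      induction i with
      | zero =>
        intro _
        have := h3 0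
        rwa [ZZ_zero] at this
      | succ i ih =>
        intro hi
        have h5 := h3 (⟨i, hi⟩ : Fin n).succ
        rw [ZZ_succ' hty] at h5
        have h6 := add_mem h5 (ih (by omega))
        rwa [sub_add_cancel] at h6
    have h5 : y 0 ∈ E' := by
      have h6 := YY_succ (y := y) (n := n) (i := 0) hn
      have h7 : YY y n (0 + 1) ≠ 0 := Finset.prod_ne_zero_iff.2 fun j hj =>
        (hyt j (Finset.mem_Ico.1 hj).2).1
      have h8 : y 0 = YY y n 0 / YY y n (0 + 1) := by
        rw [h6, mul_div_cancel_right₀ _ h7]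
      rw [h8]
      exact div_mem (h4 0 (Nat.zero_le _)) (h4 1 hn)
    rw [eq_top_iff, ← htop, adjoin_simple_le_iff]
    exact h5
  -- the height
  have hheight : N0 * (n * (k * Real.log 2) - C6) ≤ logHeight x / finrank K M := by
    have h1 : logHeight (ZZ y t n) ≤ logHeight x + finrank ℚ M * Real.log CA' := by
      have hc1M : algebraMap K M (c1 : K) ≠ 0 := by rwa [Ne, FaithfulSMul.algebraMap_eq_zero_iff]
      rw [← logHeight_smul_eq_logHeight (ZZ y t n) hc1M]
      have hval : ∀ i, (algebraMap K M (c1 : K) • ZZ y t n) i =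
          MvPolynomial.aeval x (lin (fun j => (c1 : K) * A i j)) := by
        intro i
        rw [Pi.smul_apply, smul_eq_mul, ← hAx' i, aeval_lin, Finset.mul_sum]
        refine Finset.sum_congr rfl fun j _ => ?_
        rw [map_mul, mul_assoc]
      refine height_cmp (fun h => ?_) hx0 hCA'pos ?_ ?_
      · have h2 := congrFun h 0
        rw [Pi.smul_apply, smul_eq_mul, Pi.zero_apply] at h2
        exact mul_ne_zero hc1M (hZ0 0) h2
      · intro w i
        rw [hval i]
        have h2 := (hbA i M x).2 w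
        rw [pow_one] at h2
        exact h2.trans (mul_le_mul_of_nonneg_right (hCAle i)
          (Real.iSup_nonneg fun j => apply_nonneg _ _))
      · intro v i
        rw [hval i]
        have h2 := (hbA i M x).1 v
        rwa [pow_one] at h2
    rw [le_div_iff₀ hdpos]
    have h2 := hht.trans h1
    rw [hQM] at h2
    rw [hC6]
    linarith
  have hCst : Cst ≤ logHeight x / finrank K M := hineq2.trans hheight
  -- the primes
  set a : 𝓞 K := c1 * (2 * π * (π * 2 ^ k - 1)) with ha
  have ha0 : a ≠ 0 := mul_ne_zero hc1 (mul_ne_zero (mul_ne_zero two_ne_zero hπ0) hΔ)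
  have haM : ((algebraMap (𝓞 K) (𝓞 M) a : 𝓞 M) : M) ≠ 0 := by
    rw [Ne, RingOfIntegers.coe_eq_zero_iff, FaithfulSMul.algebraMap_eq_zero_iff]
    exact ha0
  set T1 : Finset (HeightOneSpectrum (𝓞 M)) := (fv_support_finite haM).toFinset with hT1
  have hT1mem : ∀ w, w ∈ T1 ↔ algebraMap (𝓞 K) (𝓞 M) a ∈ w.asIdeal := by
    intro w
    rw [hT1, Set.Finite.mem_toFinset, Set.mem_ofPred_eq, Ne, fv_mem, not_not]
  have hT1' : ∀ w, w ∉ T1 → algebraMap (𝓞 K) (𝓞 M) c1 ∉ w.asIdeal ∧
      algebraMap (𝓞 K) (𝓞 M) (2 * π * (π * 2 ^ k - 1)) ∉ w.asIdeal := by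
    intro w hw
    rw [hT1mem, ha, map_mul] at hw
    exact ⟨fun h => hw (Ideal.mul_mem_right _ _ h), fun h => hw (Ideal.mul_mem_left _ _ h)⟩
  have hEx0 : MvPolynomial.aeval x (MvPolynomial.C (c1 : K) * E) ≠ 0 := by
    rw [map_mul, MvPolynomial.aeval_C]
    exact mul_ne_zero (by rwa [Ne, FaithfulSMul.algebraMap_eq_zero_iff]) (hnv E e hE hE0 hel)
  have hT2fin : {w : HeightOneSpectrum (𝓞 M) | fv w (MvPolynomial.aeval x
      (MvPolynomial.C (c1 : K) * E)) < (⨆ j, fv w (x j)) ^ e}.Finite := by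
    refine ((fv_support_finite hEx0).union (finite_iSup hx0)).subset ?_
    intro w hw
    by_contra h
    simp only [Set.mem_union, Set.mem_ofPred_eq, not_or, not_not] at h hw
    rw [h.1, h.2, one_pow] at hw
    exact lt_irrefl _ hw
  set T2 := hT2fin.toFinset with hT2
  have hcount := count_le hx0 hEx0 e hCE (fun w => (hbE M x).2 w) (fun v => (hbE M x).1 v) T2
    (fun w hw => by rwa [hT2, Set.Finite.mem_toFinset, Set.mem_ofPred_eq] at hw)
  have htotal := total_bound (K := K) T1 ha0 (fun w hw => (hT1mem w).1 hw) (fun w hw => by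
    by_contra h
    have h1 := hT1' w (fun h2 => h ((hT1mem w).1 h2))
    exact (hgood w h1.2).2 hw)
  refine ⟨M, fM, nM, aM, x, T1 ∪ T2, hgen, hdeg, hnv G d hG hG0 hd, hLne, hnv E e hE hE0 hel,
    hCst, ?_, ?_⟩
  · -- the other primes
    intro w hw j hlt
    rw [Finset.mem_union, not_or] at hw
    obtain ⟨hw1, hw2⟩ := hw
    obtain ⟨h1, h2⟩ := hT1' w hw1
    obtain ⟨h3, -⟩ := hgood w h2
    have hc1w : fv w (algebraMap K M (c1 : K)) = 1 := (fv_mem w (algebraMap (𝓞 K) (𝓞 M) c1)).2 h1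
    have hle : ∀ z : K, (∃ r : 𝓞 K, (r : K) = (c1 : K) * z) → fv w (algebraMap K M z) ≤ 1 := by
      rintro z ⟨r, hr⟩
      have h4 : fv w (algebraMap K M ((r : 𝓞 K) : K)) ≤ 1 :=
        Pool.Agent.H10VJ.fv_int w (algebraMap (𝓞 K) (𝓞 M) r)
      rw [hr, map_mul, map_mul, hc1w, one_mul] at h4
      exact h4
    have hYY : ∀ i, fv w (YY y n i) = 1 := by
      intro i
      unfold YY
      rw [map_prod]
      exact Finset.prod_eq_one fun j hj => (h3 j (Finset.mem_Ico.1 hj).2).1
    have hZZ : ∀ i, fv w (ZZ y t n i) = 1 := by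
      intro i
      refine Fin.cases ?_ (fun i => ?_) i
      · rw [ZZ_zero]; exact hYY 0
      · rw [ZZ_succ, map_mul, hYY, (h3 i i.2).2, one_mul]
    have hxle : ∀ j, fv w (x j) ≤ 1 := by
      intro j
      have hna : IsNonarchimedean (fv w : M → ℝ) := fun a b => fv_na w a b
      have h4 : x j = ∑ i, algebraMap K M (A⁻¹ j i) * ZZ y t n i := rfl
      rw [h4]
      obtain ⟨i, -, hi⟩ := hna.finset_image_add_of_nonempty
        (fun i => algebraMap K M (A⁻¹ j i) * ZZ y t n i) Finset.univ_nonempty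
      refine hi.trans ?_
      rw [map_mul, hZZ, mul_one]
      exact hle _ (hdA' j i)
    have hLw : ∀ i, fv w (MvPolynomial.aeval x (lin (L i))) = 1 := by
      intro i
      refine Fin.cases ?_ (fun i => ?_) i
      · rw [hL0x, map_one]
      · have h4 := congrArg (fv w) (hLs i)
        rw [map_mul, hZZ] at h4
        have h5 : fv w (algebraMap K M (b i)) = 1 := by
          refine le_antisymm (hle _ (hdb i)) ?_
          have h6 := hle _ (hdb' i)
          rw [map_inv₀, map_inv₀] at h6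
          exact (inv_le_one₀ ((fv w).pos (by
            rw [Ne, FaithfulSMul.algebraMap_eq_zero_iff]; exact hb i))).1 h6
        rwa [h5, one_mul] at h4
    apply hw2
    rw [hT2, Set.Finite.mem_toFinset, Set.mem_ofPred_eq]
    rw [map_mul, map_mul, map_prod, map_prod, Finset.prod_eq_one fun i _ => hLw i, one_mul] at hlt
    rw [map_mul, MvPolynomial.aeval_C, map_mul, hc1w, one_mul]
    refine hlt.trans_le ?_
    calc fv w (x j) ^ (n + 2 + e) ≤ fv w (x j) ^ e :=
          pow_le_pow_of_le_one (apply_nonneg _ _) (hxle j) (by omega)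
      _ ≤ _ := pow_le_pow_left₀ (apply_nonneg _ _)
          (le_ciSup (f := fun j => fv w (x j)) (Set.finite_range _).bddAbove j) _
  · -- the inequality
    have h1 : ∑ w ∈ T1 ∪ T2, ell w ≤ ∑ w ∈ T1, ell w + ∑ w ∈ T2, ell w := by
      rw [← Finset.sum_union_inter]
      have : 0 ≤ ∑ w ∈ T1 ∩ T2, ell w := Finset.sum_nonneg fun w _ => (ell_pos w).le
      linarith
    have h2 := log_discr K M
    have h3 : Real.log |((Algebra.norm ℚ (((((finrank K M).factorial : ℕ) : 𝓞 K) * a : 𝓞 K) : K) :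
        ℚ) : ℝ)| ≤ N0 * (C3 + k * Real.log 2) := by
      have e1 := log_norm_le (K := K) ((((((finrank K M).factorial : ℕ) : 𝓞 K) * a : 𝓞 K)) : K) (by
        rw [Ne, RingOfIntegers.coe_eq_zero_iff]
        exact mul_ne_zero (by exact_mod_cast Nat.factorial_ne_zero _) ha0)
      rw [← hN0, div_le_iff₀ hN0pos] at e1
      have e2 : ((((((finrank K M).factorial : ℕ) : 𝓞 K) * a : 𝓞 K)) : K) =
          ((R.factorial : ℕ) : K) * ((c1 : K) * (2 * (π : K) * ((π : K) * 2 ^ k - 1))) := by
        rw [hdeg, ha]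
        change algebraMap (𝓞 K) K _ = _
        rw [map_mul, map_mul, map_mul, map_mul, map_sub, map_mul, map_pow, map_natCast, map_ofNat,
          map_one]
      rw [e2] at e1 ⊢
      have e4 := hh_mul_le ((R.factorial : ℕ) : K)
        ((c1 : K) * (2 * (π : K) * ((π : K) * 2 ^ k - 1)))
      have e5 := hh_mul_le (c1 : K) (2 * (π : K) * ((π : K) * 2 ^ k - 1))
      have e6 := hh_mul_le (2 * (π : K)) ((π : K) * 2 ^ k - 1)
      have e7 := hh_sub_le ((π : K) * 2 ^ k) 1
      have e8 := hh_mul_le (π : K) (2 ^ k)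
      have e9 : hh ((2 : K) ^ k) = k * Real.log 2 := by
        rw [hh_pow]
        have := hh_natCast (K := K) 2
        push_cast at this
        rw [this]
      rw [hh_one] at e7
      rw [e9] at e8
      refine e1.trans ?_
      rw [mul_comm]
      refine mul_le_mul_of_nonneg_left ?_ hN0pos.le
      rw [hC3]
      linarith
    have h4 : Real.log |(discr M : ℝ)| / finrank K M - Real.log |(discr K : ℝ)| =
        Real.log ((Ideal.absNorm (differentIdeal (𝓞 K) (𝓞 M)) : ℕ) : ℝ) / finrank K M := by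
      rw [h2]
      field_simp
      ring
    rw [h4]
    have h5 : Real.log ((Ideal.absNorm (differentIdeal (𝓞 K) (𝓞 M)) : ℕ) : ℝ) +
        ∑ w ∈ T1, ell w ≤ finrank K M * (N0 * (C3 + k * Real.log 2)) :=
      htotal.trans (mul_le_mul_of_nonneg_left h3 hdpos.le)
    have h6 : (∑ w ∈ T1 ∪ T2, ell w + Real.log ((Ideal.absNorm (differentIdeal (𝓞 K) (𝓞 M)) : ℕ) :
        ℝ)) / finrank K M ≤ N0 * (C3 + k * Real.log 2) + e * (logHeight x / finrank K M) +
          N0 * Real.log CE := by
      rw [div_le_iff₀ hdpos]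
      have e1 : (N0 * (C3 + k * Real.log 2) + e * (logHeight x / finrank K M) +
          N0 * Real.log CE) * finrank K M = finrank K M * (N0 * (C3 + k * Real.log 2)) +
          e * logHeight x + N0 * finrank K M * Real.log CE := by
        field_simp
      rw [e1, ← hQM]
      linarith
    rw [add_div] at h6
    have h7 : c * (N0 * (n * (k * Real.log 2) - C6)) ≤ c * (logHeight x / finrank K M) :=
      mul_le_mul_of_nonneg_left hheight hc0.le
    have h8 : (e + c) * (logHeight x / finrank K M) =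
        e * (logHeight x / finrank K M) + c * (logHeight x / finrank K M) := by ring
    rw [h8]
    have h9 : c * (N0 * (n * (k * Real.log 2) - C6)) =
        N0 * (k * Real.log 2) * (c * n - 1) + N0 * (k * Real.log 2) - c * N0 * C6 := by ring
    have h10 : N0 * (C3 + k * Real.log 2) = N0 * C3 + N0 * (k * Real.log 2) := by ring
    rw [h9] at h7
    rw [hC7] at hineq1
    rw [h10] at h6
    linarith

end Pool.Agent.H10UD
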